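import Mathlib
import Pool.Agent.Helper256.KM.Mertens

/-!
Lower bounds for sums of multiplicative functions over the squarefree integers composed of primes
from a given set of positive density.
-/

set_option autoImplicit false

namespace Pool.Agent.X50.SQ

open Finset

/-- the primes of `𝔓` in `(z, y]` -/
def PP (𝔓 : ℕ → Prop) [DecidablePred 𝔓] (z y : ℕ) : Finset ℕ :=
  (Ioc z y).filter fun p => p.Prime ∧ 𝔓 p

/-- the finite subsets of these primes with product at most `Q` -/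
def DD (𝔓 : ℕ → Prop) [DecidablePred 𝔓] (z Q : ℕ) : Finset (Finset ℕ) :=
  (PP 𝔓 z Q).powerset.filter fun D => ∏ p ∈ D, p ≤ Q

variable {𝔓 : ℕ → Prop} [DecidablePred 𝔓]

theorem mem_PP {z y p : ℕ} : p ∈ PP 𝔓 z y ↔ (z < p ∧ p ≤ y) ∧ p.Prime ∧ 𝔓 p := by
  unfold PP
  rw [mem_filter, mem_Ioc]

theorem mem_DD {z Q : ℕ} {D : Finset ℕ} : D ∈ DD 𝔓 z Q ↔ D ⊆ PP 𝔓 z Q ∧ ∏ p ∈ D, p ≤ Q := by
  unfold DD
  rw [mem_filter, mem_powerset]

/-- the two properties of the set of primes -/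
structure Dens (𝔓 : ℕ → Prop) [DecidablePred 𝔓] (κ : ℝ) : Prop where
  inv : ∃ C : ℝ, ∀ y : ℕ, 3 ≤ y → κ * Real.log (Real.log y) - C ≤ ∑ p ∈ PP 𝔓 0 y, 1 / (p : ℝ)
  cheb : ∃ (c : ℝ) (Y₀ : ℕ), 0 < c ∧ ∀ Y : ℕ, Y₀ ≤ Y → c * Y ≤ ∑ p ∈ PP 𝔓 0 Y, Real.log p

theorem sum_sq_le (z y : ℕ) : ∑ p ∈ PP 𝔓 z y, 1 / (p : ℝ) ^ 2 ≤ 2 := by
  have h0 : ∑ p ∈ PP 𝔓 z y, 1 / (p : ℝ) ^ 2 ≤ ∑ p ∈ Ioo 0 (y + 1), ((p : ℝ) ^ 2)⁻¹ := by
    simp only [one_div]
    refine sum_le_sum_of_subset_of_nonneg ?_ fun _ _ _ => by positivity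
    intro p hp
    rw [mem_PP] at hp
    rw [mem_Ioo]
    omega
  have h1 := sum_Ioo_inv_sq_le (α := ℝ) 0 (y + 1)
  refine h0.trans (h1.trans ?_)
  norm_num

/-- the values at the primes -/
noncomputable def gg (m C : ℝ) (p : ℕ) : ℝ := m * (1 - C / p)

/-- the bound below which primes are left out -/
noncomputable def zz (C : ℝ) : ℕ := ⌈2 * C⌉₊ + 3

theorem gg_bounds {m C : ℝ} (hm : 0 ≤ m) (hC : 0 ≤ C) {p : ℕ} (hp : zz C < p) :
    m / 2 ≤ gg m C p ∧ gg m C p ≤ m := by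
  have h0 : (0 : ℝ) < p := by
    have : 0 < p := by omega
    exact_mod_cast this
  have h1 : 2 * C ≤ p := by
    have h2 : ((zz C : ℕ) : ℝ) < p := by exact_mod_cast hp
    have h3 := Nat.le_ceil (2 * C)
    unfold zz at h2
    push_cast at h2
    linarith
  have h2 : C / p ≤ 1 / 2 := by
    rw [div_le_div_iff₀ h0 (by norm_num)]
    linarith
  have h3 : 0 ≤ C / p := by positivity
  unfold gg
  constructor <;> nlinarith

theorem log_ge_one {y : ℕ} (hy : 3 ≤ y) : 1 ≤ Real.log y := by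
  have h1 : Real.exp 1 ≤ y := by
    have h2 := Real.exp_one_lt_d9
    have h3 : (3 : ℝ) ≤ y := by exact_mod_cast hy
    linarith
  rw [Real.le_log_iff_exp_le (by positivity)]
  exact h1

/-- the full product -/
noncomputable def FF (𝔓 : ℕ → Prop) [DecidablePred 𝔓] (m C : ℝ) (y : ℕ) : ℝ :=
  ∏ p ∈ PP 𝔓 (zz C) y, (1 + gg m C p / p)

theorem full_lower {κ : ℝ} (hD : Dens 𝔓 κ) {m C : ℝ} (hm : 0 ≤ m) (hC : 0 ≤ C) :
    ∃ c : ℝ, 0 < c ∧ ∀ y : ℕ, 3 ≤ y → c * (Real.log y) ^ (m * κ) ≤ FF 𝔓 m C y := by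
  obtain ⟨C1, h1⟩ := hD.inv
  set z := zz C
  refine ⟨Real.exp (-(m * (C1 + z) + 2 * (m * C + m ^ 2))), Real.exp_pos _, ?_⟩
  intro y hy
  have hly := log_ge_one hy
  have hly0 : 0 < Real.log y := by linarith
  have hpart : ∑ p ∈ PP 𝔓 0 y, 1 / (p : ℝ) ≤ ∑ p ∈ PP 𝔓 z y, 1 / (p : ℝ) + z := by
    have hs : PP 𝔓 0 y ⊆ PP 𝔓 z y ∪ Ioc 0 z := by
      intro p hp
      rw [mem_PP] at hp
      rw [mem_union, mem_PP, mem_Ioc]
      by_cases h : z < p
      · exact Or.inl ⟨⟨h, hp.1.2⟩, hp.2⟩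
      · exact Or.inr ⟨hp.1.1, by omega⟩
    refine (sum_le_sum_of_subset_of_nonneg hs fun _ _ _ => by positivity).trans ?_
    have hu : ∑ p ∈ PP 𝔓 z y ∪ Ioc 0 z, 1 / (p : ℝ) ≤
        ∑ p ∈ PP 𝔓 z y, 1 / (p : ℝ) + ∑ p ∈ Ioc 0 z, 1 / (p : ℝ) := by
      rw [← sum_union_inter]
      have : 0 ≤ ∑ p ∈ PP 𝔓 z y ∩ Ioc 0 z, 1 / (p : ℝ) := sum_nonneg fun _ _ => by positivity
      linarith
    refine hu.trans ?_
    have h2 : ∑ p ∈ Ioc 0 z, 1 / (p : ℝ) ≤ ∑ _p ∈ Ioc 0 z, (1 : ℝ) := by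
      refine sum_le_sum fun p hp => ?_
      rw [mem_Ioc] at hp
      have : (1 : ℝ) ≤ p := by exact_mod_cast hp.1
      rw [div_le_one (by linarith)]
      exact this
    rw [sum_const, Nat.card_Ioc, nsmul_eq_mul, mul_one] at h2
    simpa using h2
  have hprod : Real.exp (∑ p ∈ PP 𝔓 z y, (m * (1 / (p : ℝ)) - (m * C + m ^ 2) * (1 / (p : ℝ) ^ 2))) ≤
      FF 𝔓 m C y := by
    rw [Real.exp_sum]
    unfold FF
    refine prod_le_prod (fun p _ => (Real.exp_pos _).le) fun p hp => ?_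
    rw [mem_PP] at hp
    have hb := gg_bounds hm hC hp.1.1
    have hp0 : (0 : ℝ) < p := by exact_mod_cast hp.2.1.pos
    have hp1 : (1 : ℝ) ≤ p := by exact_mod_cast hp.2.1.one_lt.le
    set x := gg m C p / p with hx
    have hx0 : 0 ≤ x := div_nonneg (by linarith [hb.1]) hp0.le
    have hxm : x ≤ m / p := div_le_div_of_nonneg_right hb.2 hp0.le
    have h3 : x - x ^ 2 ≤ Real.log (1 + x) := by
      refine le_trans ?_ (Real.le_log_one_add_of_nonneg hx0)
      rw [le_div_iff₀ (by linarith)]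
      nlinarith [mul_nonneg hx0 hx0, mul_nonneg (mul_nonneg hx0 hx0) hx0]
    rw [← Real.le_log_iff_exp_le (by linarith)]
    refine le_trans ?_ h3
    have h4 : x = m * (1 / (p : ℝ)) - m * C * (1 / (p : ℝ) ^ 2) := by
      rw [hx]
      unfold gg
      field_simp
    have h5 : x ^ 2 ≤ m ^ 2 * (1 / (p : ℝ) ^ 2) := by
      have := pow_le_pow_left₀ hx0 hxm 2
      calc x ^ 2 ≤ (m / p) ^ 2 := this
        _ = _ := by rw [div_pow]; ring
    rw [h4] at h5 ⊢
    linarith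
  refine le_trans ?_ hprod
  rw [Real.rpow_def_of_pos hly0, ← Real.exp_add]
  refine Real.exp_le_exp.mpr ?_
  rw [sum_sub_distrib, ← mul_sum, ← mul_sum]
  have h6 := sum_sq_le (𝔓 := 𝔓) z y
  have h7 := h1 y hy
  have h8 : κ * Real.log (Real.log y) - C1 - z ≤ ∑ p ∈ PP 𝔓 z y, 1 / (p : ℝ) := by linarith
  have h9 := mul_le_mul_of_nonneg_left h8 hm
  have h10 : (m * C + m ^ 2) * ∑ p ∈ PP 𝔓 z y, 1 / (p : ℝ) ^ 2 ≤ (m * C + m ^ 2) * 2 :=
    mul_le_mul_of_nonneg_left h6 (by positivity)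
  linarith

theorem tail {m C : ℝ} (hm : 0 ≤ m) (hC : 0 ≤ C) :
    ∃ K : ℝ, 0 ≤ K ∧ ∀ y : ℕ, 3 ≤ y → ∀ u : ℝ,
      ∑ D ∈ (PP 𝔓 (zz C) y).powerset.filter
        (fun D => u * Real.log y < Real.log ((∏ p ∈ D, p : ℕ) : ℝ)), ∏ p ∈ D, (gg m C p / p) ≤
      Real.exp (K - u) * FF 𝔓 m C y := by
  obtain ⟨C2, h2⟩ := Pool.Agent.Helper256.KM.mertens_log
  have hC20 : 0 ≤ C2 := (abs_nonneg _).trans (h2 1 le_rfl)
  refine ⟨2 * m * (1 + C2), by positivity, ?_⟩
  intro y hy u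
  have hly := log_ge_one hy
  have hly0 : 0 < Real.log y := by linarith
  set z := zz C
  have hg0 : ∀ p ∈ PP 𝔓 z y, 0 ≤ gg m C p / p := by
    intro p hp
    rw [mem_PP] at hp
    have hb := gg_bounds hm hC hp.1.1
    exact div_nonneg (by linarith [hb.1]) (Nat.cast_nonneg _)
  have s1 : ∑ D ∈ (PP 𝔓 z y).powerset.filter
        (fun D => u * Real.log y < Real.log ((∏ p ∈ D, p : ℕ) : ℝ)), ∏ p ∈ D, (gg m C p / p) ≤
      Real.exp (-u) * ∑ D ∈ (PP 𝔓 z y).powerset,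
        ∏ p ∈ D, (gg m C p / p * Real.exp (Real.log p / Real.log y)) := by
    rw [mul_sum]
    have hle : ∀ D ∈ (PP 𝔓 z y).powerset.filter
        (fun D => u * Real.log y < Real.log ((∏ p ∈ D, p : ℕ) : ℝ)), ∏ p ∈ D, (gg m C p / p) ≤
        Real.exp (-u) * ∏ p ∈ D, (gg m C p / p * Real.exp (Real.log p / Real.log y)) := by
      intro D hD
      rw [mem_filter, mem_powerset] at hD
      have hprod0 : 0 ≤ ∏ p ∈ D, (gg m C p / p) := prod_nonneg fun p hp => hg0 p (hD.1 hp)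
      rw [prod_mul_distrib, ← Real.exp_sum, ← sum_div]
      have hlog : Real.log ((∏ p ∈ D, p : ℕ) : ℝ) = ∑ p ∈ D, Real.log p := by
        rw [Nat.cast_prod, Real.log_prod]
        intro p hp
        have := (mem_PP.mp (hD.1 hp)).2.1.ne_zero
        exact_mod_cast this
      rw [← hlog]
      have h3 : 1 ≤ Real.exp (-u) * Real.exp (Real.log ((∏ p ∈ D, p : ℕ) : ℝ) / Real.log y) := by
        rw [← Real.exp_add]
        refine Real.one_le_exp ?_
        have : u ≤ Real.log ((∏ p ∈ D, p : ℕ) : ℝ) / Real.log y := by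
          rw [le_div_iff₀ hly0]
          exact hD.2.le
        linarith
      calc ∏ p ∈ D, (gg m C p / p) = (∏ p ∈ D, (gg m C p / p)) * 1 := by ring
        _ ≤ (∏ p ∈ D, (gg m C p / p)) *
            (Real.exp (-u) * Real.exp (Real.log ((∏ p ∈ D, p : ℕ) : ℝ) / Real.log y)) :=
          mul_le_mul_of_nonneg_left h3 hprod0
        _ = _ := by ring
    refine (sum_le_sum hle).trans ?_
    refine sum_le_sum_of_subset_of_nonneg (filter_subset _ _) fun D hD _ => ?_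
    refine mul_nonneg (Real.exp_pos _).le (prod_nonneg fun p hp => ?_)
    exact mul_nonneg (hg0 p (mem_powerset.mp hD hp)) (Real.exp_pos _).le
  refine s1.trans ?_
  rw [← prod_one_add]
  have s2 : ∏ p ∈ PP 𝔓 z y, (1 + gg m C p / p * Real.exp (Real.log p / Real.log y)) ≤
      FF 𝔓 m C y * Real.exp (2 * m * (1 + C2)) := by
    have e1 : ∏ p ∈ PP 𝔓 z y, (1 + gg m C p / p * Real.exp (Real.log p / Real.log y)) ≤
        ∏ p ∈ PP 𝔓 z y, ((1 + gg m C p / p) * Real.exp (2 * m / Real.log y * (Real.log p / p))) := by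
      refine prod_le_prod (fun p hp => ?_) fun p hp => ?_
      · have := mul_nonneg (hg0 p hp) (Real.exp_pos (Real.log p / Real.log y)).le
        linarith
      · have hx0 := hg0 p hp
        rw [mem_PP] at hp
        have hb := gg_bounds hm hC hp.1.1
        have hp0 : (0 : ℝ) < p := by exact_mod_cast hp.2.1.pos
        have hp1 : (1 : ℝ) ≤ p := by exact_mod_cast hp.2.1.one_lt.le
        have hlp : 0 ≤ Real.log p := Real.log_nonneg hp1
        have hlpy : Real.log p ≤ Real.log y := Real.log_le_log hp0 (by exact_mod_cast hp.1.2)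
        set x := gg m C p / p with hx
        set t := Real.log p / Real.log y with ht
        have ht0 : 0 ≤ t := by positivity
        have ht1 : t ≤ 1 := by rw [ht, div_le_one hly0]; exact hlpy
        have hxm : x ≤ m / p := div_le_div_of_nonneg_right hb.2 hp0.le
        have h4 : Real.exp t ≤ 1 + 2 * t := by
          have h5 := Real.abs_exp_sub_one_sub_id_le (x := t) (by rw [abs_of_nonneg ht0]; exact ht1)
          have h6 := (abs_le.mp h5).2
          nlinarith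
        have h7 : 2 * m / Real.log y * (Real.log p / p) = m / p * (2 * t) := by
          rw [ht]
          field_simp
        rw [h7]
        have h8 : 1 + m / p * (2 * t) ≤ Real.exp (m / p * (2 * t)) := by
          have := Real.add_one_le_exp (m / p * (2 * t))
          linarith
        calc 1 + x * Real.exp t ≤ 1 + x * (1 + 2 * t) := by
              have := mul_le_mul_of_nonneg_left h4 hx0
              linarith
          _ ≤ (1 + x) * (1 + m / p * (2 * t)) := by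
              have h9 : x * (2 * t) ≤ m / p * (2 * t) :=
                mul_le_mul_of_nonneg_right hxm (by linarith)
              have h10 : 0 ≤ x * (m / p * (2 * t)) := by positivity
              nlinarith
          _ ≤ _ := mul_le_mul_of_nonneg_left h8 (by linarith)
    refine e1.trans ?_
    rw [prod_mul_distrib, ← Real.exp_sum, ← mul_sum]
    refine mul_le_mul_of_nonneg_left (Real.exp_le_exp.mpr ?_) ?_
    · have h11 : ∑ p ∈ PP 𝔓 z y, Real.log p / p ≤ Real.log y + C2 := by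
        have h12 : ∑ p ∈ PP 𝔓 z y, Real.log p / p ≤
            ∑ p ∈ (Finset.Icc 1 y).filter Nat.Prime, Real.log p / p := by
          refine sum_le_sum_of_subset_of_nonneg ?_ fun p _ _ => ?_
          · intro p hp
            rw [mem_PP] at hp
            rw [mem_filter, mem_Icc]
            exact ⟨⟨hp.2.1.one_lt.le, hp.1.2⟩, hp.2.1⟩
          · positivity
        have h13 := (abs_le.mp (h2 y (by omega))).2
        linarith
      have h14 : 0 ≤ 2 * m / Real.log y := by positivity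
      have h15 := mul_le_mul_of_nonneg_left h11 h14
      refine h15.trans ?_
      have h16 : 2 * m / Real.log y * (Real.log y + C2) = 2 * m * (1 + C2 / Real.log y) := by
        field_simp
      rw [h16]
      have h17 : C2 / Real.log y ≤ C2 := div_le_self hC20 hly
      have : 1 + C2 / Real.log y ≤ 1 + C2 := by linarith
      exact mul_le_mul_of_nonneg_left this (by positivity)
    · refine prod_nonneg fun p hp => ?_
      have := hg0 p hp
      linarith
  calc Real.exp (-u) * ∏ p ∈ PP 𝔓 z y, (1 + gg m C p / p * Real.exp (Real.log p / Real.log y))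
      ≤ Real.exp (-u) * (FF 𝔓 m C y * Real.exp (2 * m * (1 + C2))) :=
        mul_le_mul_of_nonneg_left s2 (Real.exp_pos _).le
    _ = _ := by
        rw [sub_eq_add_neg, Real.exp_add]
        ring

/-- the weighted sum `∑ g(q)/q` -/
theorem recip_lower {κ : ℝ} (hD : Dens 𝔓 κ) {m C : ℝ} (hm : 0 < m) (hC : 0 ≤ C) (hκ : 0 ≤ κ) :
    ∃ (c : ℝ) (X₀ : ℕ), 0 < c ∧ ∀ x : ℕ, X₀ ≤ x → c * (Real.log x) ^ (m * κ) ≤
      ∑ D ∈ DD 𝔓 (zz C) x, ∏ p ∈ D, (gg m C p / p) := by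
  obtain ⟨c, hc, h1⟩ := full_lower hD hm.le hC
  obtain ⟨K, hK, h2⟩ := tail (𝔓 := 𝔓) hm.le hC
  set u : ℝ := K + 1 with hu
  have hu1 : 1 ≤ u := by linarith
  have hu0 : 0 < u := by linarith
  obtain ⟨X₁, hX₁⟩ : ∃ X₁ : ℕ, ∀ x : ℕ, X₁ ≤ x → 8 * u ≤ Real.log x := by
    have := (Real.tendsto_log_atTop.comp tendsto_natCast_atTop_atTop).eventually_ge_atTop (8 * u)
    exact Filter.eventually_atTop.mp this
  refine ⟨c / 2 * (1 / (2 * u)) ^ (m * κ), X₁ + 3, by positivity, ?_⟩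
  intro x hx
  have hxu := hX₁ x (by omega)
  have hx0 : (0 : ℝ) < x := by
    have : 0 < x := by omega
    exact_mod_cast this
  set y : ℕ := ⌊Real.exp (Real.log x / u)⌋₊ with hy
  have hyle : (y : ℝ) ≤ Real.exp (Real.log x / u) := Nat.floor_le (Real.exp_pos _).le
  have hygt : Real.exp (Real.log x / u) < y + 1 := Nat.lt_floor_add_one _
  have hxu2 : 8 ≤ Real.log x / u := by
    rw [le_div_iff₀ hu0]
    linarith
  have hexp8 : (9 : ℝ) ≤ Real.exp (Real.log x / u) := by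
    have := Real.add_one_le_exp (Real.log x / u)
    linarith
  have hy8 : (8 : ℝ) < y := by linarith
  have hy3 : 3 ≤ y := by
    have : (3 : ℝ) ≤ y := by linarith
    exact_mod_cast this
  have hly := log_ge_one hy3
  have hy0 : (0 : ℝ) < y := by linarith
  have hlogy : Real.log y ≤ Real.log x / u := by
    rw [Real.log_le_iff_le_exp hy0]
    exact hyle
  have hlogy2 : Real.log x / (2 * u) ≤ Real.log y := by
    rw [Real.le_log_iff_exp_le hy0]
    have e1 : Real.exp (Real.log x / (2 * u)) * Real.exp (Real.log x / (2 * u)) =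
        Real.exp (Real.log x / u) := by
      rw [← Real.exp_add]
      congr 1
      field_simp
      norm_num
    have e2 : (5 : ℝ) ≤ Real.exp (Real.log x / (2 * u)) := by
      have e3 := Real.add_one_le_exp (Real.log x / (2 * u))
      have e4 : Real.log x / (2 * u) = Real.log x / u / 2 := by
        field_simp
      linarith
    nlinarith
  have h3 := h2 y hy3 u
  have hF0 : 0 ≤ FF 𝔓 m C y := by
    have := h1 y hy3
    have h5 : 0 ≤ c * (Real.log y) ^ (m * κ) := by positivity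
    linarith
  have h4 : Real.exp (K - u) ≤ 1 / 2 := by
    have : K - u = -1 := by rw [hu]; ring
    rw [this, Real.exp_neg]
    have := Real.add_one_le_exp (1 : ℝ)
    rw [← one_div, div_le_div_iff₀ (Real.exp_pos _) (by norm_num)]
    linarith
  have h5 : FF 𝔓 m C y / 2 ≤ ∑ D ∈ (PP 𝔓 (zz C) y).powerset.filter
      (fun D => ¬ u * Real.log y < Real.log ((∏ p ∈ D, p : ℕ) : ℝ)), ∏ p ∈ D, (gg m C p / p) := by
    have h6 := sum_filter_add_sum_filter_not (PP 𝔓 (zz C) y).powerset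
      (fun D => u * Real.log y < Real.log ((∏ p ∈ D, p : ℕ) : ℝ)) (fun D => ∏ p ∈ D, (gg m C p / p))
    rw [← prod_one_add] at h6
    have h7 : ∏ p ∈ PP 𝔓 (zz C) y, (1 + gg m C p / p) = FF 𝔓 m C y := rfl
    rw [h7] at h6
    have h8 := mul_le_mul_of_nonneg_right h4 hF0
    linarith
  have h6 : ∑ D ∈ (PP 𝔓 (zz C) y).powerset.filter
      (fun D => ¬ u * Real.log y < Real.log ((∏ p ∈ D, p : ℕ) : ℝ)), ∏ p ∈ D, (gg m C p / p) ≤
      ∑ D ∈ DD 𝔓 (zz C) x, ∏ p ∈ D, (gg m C p / p) := by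
    have hyx : y ≤ x := by
      have e1 : Real.log x / u ≤ Real.log x := div_le_self (by linarith) hu1
      have e2 : (y : ℝ) ≤ x := by
        refine hyle.trans ?_
        calc Real.exp (Real.log x / u) ≤ Real.exp (Real.log x) := Real.exp_le_exp.mpr e1
          _ = x := Real.exp_log hx0
      exact_mod_cast e2
    refine sum_le_sum_of_subset_of_nonneg ?_ ?_
    · intro D hDm
      rw [mem_filter, mem_powerset, not_lt] at hDm
      rw [mem_DD]
      refine ⟨fun p hp => ?_, ?_⟩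
      · have := hDm.1 hp
        rw [mem_PP] at this ⊢
        exact ⟨⟨this.1.1, this.1.2.trans hyx⟩, this.2⟩
      · have h0 : 0 < ∏ p ∈ D, p := prod_pos fun p hp => (mem_PP.mp (hDm.1 hp)).2.1.pos
        have e1 : Real.log ((∏ p ∈ D, p : ℕ) : ℝ) ≤ Real.log x := by
          refine hDm.2.trans ?_
          have := mul_le_mul_of_nonneg_left hlogy hu0.le
          rwa [mul_div_cancel₀ _ hu0.ne'] at this
        have e2 := (Real.log_le_log_iff (by exact_mod_cast h0) hx0).mp e1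
        exact_mod_cast e2
    · intro D hDm _
      rw [mem_DD] at hDm
      refine prod_nonneg fun p hp => ?_
      have hp' := mem_PP.mp (hDm.1 hp)
      have hb := gg_bounds hm.le hC hp'.1.1
      exact div_nonneg (by linarith [hb.1]) (Nat.cast_nonneg _)
  refine le_trans ?_ (h5.trans h6)
  have h7 := h1 y hy3
  have h8 : (Real.log x * (1 / (2 * u))) ^ (m * κ) ≤ (Real.log y) ^ (m * κ) := by
    refine Real.rpow_le_rpow (by positivity) ?_ (by positivity)
    calc Real.log x * (1 / (2 * u)) = Real.log x / (2 * u) := by ring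
      _ ≤ _ := hlogy2
  rw [Real.mul_rpow (by linarith) (by positivity)] at h8
  have h9 := mul_le_mul_of_nonneg_left h8 hc.le
  calc c / 2 * (1 / (2 * u)) ^ (m * κ) * Real.log x ^ (m * κ) =
      (c * (Real.log x ^ (m * κ) * (1 / (2 * u)) ^ (m * κ))) / 2 := by ring
    _ ≤ FF 𝔓 m C y / 2 := by linarith

/-- the weighted sum `∑ g(q)` -/
theorem sum_lower {κ : ℝ} (hD : Dens 𝔓 κ) {m C : ℝ} (hm : 0 < m) (hC : 0 ≤ C) (hκ : 0 ≤ κ) :
    ∃ (c : ℝ) (Q₀ : ℕ), 0 < c ∧ ∀ Q : ℕ, Q₀ ≤ Q → c * Q * (Real.log Q) ^ (m * κ - 1) ≤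
      ∑ D ∈ DD 𝔓 (zz C) Q, ∏ p ∈ D, gg m C p := by
  obtain ⟨c1, X₀, hc1, h1⟩ := recip_lower hD hm hC hκ
  obtain ⟨c2, Y₀, hc2, h2⟩ := hD.cheb
  set z := zz C with hz
  -- the threshold
  obtain ⟨Q₁, hQ₁⟩ : ∃ Q₁ : ℕ, ∀ Q : ℕ, Q₁ ≤ Q →
      16 * ((z : ℝ) * z + 2 * Real.log Q) ≤ c2 * Real.sqrt Q := by
    have t1 : Filter.Tendsto (fun x : ℝ => Real.log x / x ^ (1 / 2 : ℝ)) Filter.atTop (nhds 0) :=
      (isLittleO_log_rpow_atTop (by norm_num)).tendsto_div_nhds_zero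
    have t2 : Filter.Tendsto (fun x : ℝ => (16 * (z : ℝ) * z) / x ^ (1 / 2 : ℝ)) Filter.atTop (nhds 0) :=
      (tendsto_rpow_atTop (by norm_num)).const_div_atTop _
    have t3 := ((t1.const_mul 32).add t2)
    rw [mul_zero, add_zero] at t3
    have t4 := (t3.comp tendsto_natCast_atTop_atTop).eventually (gt_mem_nhds hc2)
    obtain ⟨Q₁, h⟩ := Filter.eventually_atTop.mp t4
    refine ⟨Q₁ + 1, fun Q hQ => ?_⟩
    have h3 := h Q (by omega)
    simp only [Function.comp] at h3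
    have hQ0 : (0 : ℝ) < Q := by
      have : 0 < Q := by omega
      exact_mod_cast this
    have hs : (0 : ℝ) < (Q : ℝ) ^ (1 / 2 : ℝ) := Real.rpow_pos_of_pos hQ0 _
    rw [Real.sqrt_eq_rpow]
    have h4 : 32 * (Real.log Q / (Q : ℝ) ^ (1 / 2 : ℝ)) + 16 * (z : ℝ) * z / (Q : ℝ) ^ (1 / 2 : ℝ) =
      (16 * ((z : ℝ) * z + 2 * Real.log Q)) / (Q : ℝ) ^ (1 / 2 : ℝ) := by
      field_simp
      ring
    rw [h4, div_lt_iff₀ hs] at h3
    exact h3.le
  refine ⟨m * c2 / 16 * (c1 * (1 / 3) ^ (m * κ)), Q₁ + (X₀ + Y₀ + 100) ^ 2, by positivity, ?_⟩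
  intro Q hQ
  have hQ1 := hQ₁ Q (by omega)
  have hQ100 : (X₀ + Y₀ + 100) ^ 2 ≤ Q := by omega
  set R := Nat.sqrt Q with hR
  have hRge : X₀ + Y₀ + 100 ≤ R := by
    rw [hR, Nat.le_sqrt']
    exact hQ100
  have hRR : R * R ≤ Q := Nat.sqrt_le Q
  have hQR : Q < (R + 1) * (R + 1) := Nat.lt_succ_sqrt Q
  have hR0 : 0 < R := by omega
  have hQ0' : 0 < Q := lt_of_lt_of_le (Nat.mul_pos hR0 hR0) hRR
  have hQ0 : (0 : ℝ) < Q := by exact_mod_cast hQ0'
  have hR3 : 3 ≤ R := by omega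
  have hQ3 : 3 ≤ Q := by nlinarith
  have hlQ := log_ge_one hQ3
  have hlQ0 : 0 < Real.log Q := by linarith
  have hlR : Real.log Q / 3 ≤ Real.log R := by
    have hR100 : (100 : ℝ) ≤ R := by
      have : 100 ≤ R := by omega
      exact_mod_cast this
    have e1 : (Q : ℝ) ≤ (R : ℝ) ^ 3 := by
      have : (Q : ℝ) ≤ ((R : ℝ) + 1) * (R + 1) := by exact_mod_cast hQR.le
      nlinarith [sq_nonneg ((R : ℝ) - 2)]
    have e2 := Real.log_le_log hQ0 e1
    rw [Real.log_pow] at e2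
    push_cast at e2
    linarith
  -- the inner sums
  have hinner : ∀ D' ∈ DD 𝔓 z R, m * c2 / 16 * (Q / ((∏ p ∈ D', p : ℕ) : ℝ)) ≤
      ∑ p ∈ PP 𝔓 z (Q / ∏ p ∈ D', p) \ D', gg m C p * Real.log p := by
    intro D' hD'
    rw [mem_DD] at hD'
    set q := ∏ p ∈ D', p with hq
    have hq0 : 0 < q := prod_pos fun p hp => (mem_PP.mp (hD'.1 hp)).2.1.pos
    have hq0' : (0 : ℝ) < q := by exact_mod_cast hq0
    set Y := Q / q with hY
    have hYR : R ≤ Y := by
      rw [hY, Nat.le_div_iff_mul_le hq0]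
      exact (Nat.mul_le_mul_left R hD'.2).trans hRR
    have hY0 : Y₀ ≤ Y := by omega
    have hcheb := h2 Y hY0
    have hYq : (Q : ℝ) / q ≤ 2 * Y := by
      have e1 : Q < (Y + 1) * q := by
        have := Nat.lt_div_mul_add hq0 (a := Q)
        rw [← hY] at this
        linarith
      rw [div_le_iff₀ hq0']
      have e2 : (Q : ℝ) ≤ ((Y : ℝ) + 1) * q := by exact_mod_cast e1.le
      have e3 : (1 : ℝ) ≤ Y := by
        have : 1 ≤ Y := by omega
        exact_mod_cast this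
      nlinarith
    have hYs : Real.sqrt Q ≤ 2 * Y := by
      rw [Real.sqrt_le_left (by positivity)]
      have e1 : (Q : ℝ) ≤ ((R : ℝ) + 1) * (R + 1) := by exact_mod_cast hQR.le
      have e2 : (R : ℝ) ≤ Y := by exact_mod_cast hYR
      have e3 : (3 : ℝ) ≤ R := by exact_mod_cast hR3
      nlinarith
    -- small primes
    have hsmall : ∑ p ∈ PP 𝔓 0 Y, Real.log p ≤ ∑ p ∈ PP 𝔓 z Y, Real.log p + (z : ℝ) * z := by
      have hs : PP 𝔓 0 Y ⊆ PP 𝔓 z Y ∪ Ioc 0 z := by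
        intro p hp
        rw [mem_PP] at hp
        rw [mem_union, mem_PP, mem_Ioc]
        by_cases h : z < p
        · exact Or.inl ⟨⟨h, hp.1.2⟩, hp.2⟩
        · exact Or.inr ⟨hp.1.1, by omega⟩
      refine (sum_le_sum_of_subset_of_nonneg hs fun p _ _ => Real.log_natCast_nonneg p).trans ?_
      have hu : ∑ p ∈ PP 𝔓 z Y ∪ Ioc 0 z, Real.log p ≤
          ∑ p ∈ PP 𝔓 z Y, Real.log p + ∑ p ∈ Ioc 0 z, Real.log p := by
        rw [← sum_union_inter]
        have : 0 ≤ ∑ p ∈ PP 𝔓 z Y ∩ Ioc 0 z, Real.log (p : ℝ) :=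
          sum_nonneg fun p _ => Real.log_natCast_nonneg p
        linarith
      refine hu.trans ?_
      have h2 : ∑ p ∈ Ioc 0 z, Real.log (p : ℝ) ≤ ∑ _p ∈ Ioc 0 z, (z : ℝ) := by
        refine sum_le_sum fun p hp => ?_
        rw [mem_Ioc] at hp
        have e1 : (0 : ℝ) < p := by exact_mod_cast hp.1
        have e2 : (p : ℝ) ≤ z := by exact_mod_cast hp.2
        have := Real.log_le_sub_one_of_pos e1
        linarith
      rw [sum_const, Nat.card_Ioc, nsmul_eq_mul] at h2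
      simpa using h2
    have hD'log : ∑ p ∈ D', Real.log p ≤ Real.log Q := by
      have e1 : Real.log ((∏ p ∈ D', p : ℕ) : ℝ) = ∑ p ∈ D', Real.log p := by
        rw [Nat.cast_prod, Real.log_prod]
        intro p hp
        have := (mem_PP.mp (hD'.1 hp)).2.1.ne_zero
        exact_mod_cast this
      rw [← e1]
      refine Real.log_le_log hq0' ?_
      have : q ≤ Q := hD'.2.trans (by nlinarith)
      exact_mod_cast this
    have hlow : m / 2 * ∑ p ∈ PP 𝔓 z Y \ D', Real.log p ≤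
        ∑ p ∈ PP 𝔓 z Y \ D', gg m C p * Real.log p := by
      rw [mul_sum]
      refine sum_le_sum fun p hp => ?_
      rw [mem_sdiff, mem_PP] at hp
      have hb := gg_bounds hm.le hC hp.1.1.1
      exact mul_le_mul_of_nonneg_right hb.1 (Real.log_natCast_nonneg p)
    refine le_trans ?_ hlow
    have hsd : ∑ p ∈ PP 𝔓 z Y, Real.log p - ∑ p ∈ D', Real.log p ≤
        ∑ p ∈ PP 𝔓 z Y \ D', Real.log p := by
      have e1 := sum_inter_add_sum_sdiff (PP 𝔓 z Y) D' (fun p : ℕ => Real.log (p : ℝ))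
      have e2 : ∑ p ∈ PP 𝔓 z Y ∩ D', Real.log (p : ℝ) ≤ ∑ p ∈ D', Real.log (p : ℝ) :=
        sum_le_sum_of_subset_of_nonneg inter_subset_right fun p _ _ => Real.log_natCast_nonneg p
      linarith
    have hfin : c2 / 8 * (Q / (q : ℝ)) ≤ ∑ p ∈ PP 𝔓 z Y \ D', Real.log p := by
      have e1 : c2 * Real.sqrt Q ≤ c2 * (2 * Y) := mul_le_mul_of_nonneg_left hYs hc2.le
      have e2 : c2 * (Q / (q : ℝ)) ≤ c2 * (2 * Y) := mul_le_mul_of_nonneg_left hYq hc2.le
      have e3 : 0 ≤ c2 * Y := by positivity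
      linarith
    calc m * c2 / 16 * (Q / (q : ℝ)) = m / 2 * (c2 / 8 * (Q / (q : ℝ))) := by ring
      _ ≤ _ := mul_le_mul_of_nonneg_left hfin (by positivity)
  -- the reorganisation
  have hre : ∑ D' ∈ DD 𝔓 z R, (∏ p ∈ D', gg m C p) *
      ∑ p ∈ PP 𝔓 z (Q / ∏ p ∈ D', p) \ D', gg m C p * Real.log p ≤
      ∑ D ∈ DD 𝔓 z Q, (∏ p ∈ D, gg m C p) * ∑ p ∈ D, Real.log p := by
    obtain ⟨Sg, hSg⟩ : ∃ Sg : Finset (Σ _ : Finset ℕ, ℕ),
        Sg = (DD 𝔓 z R).sigma (fun D' => PP 𝔓 z (Q / ∏ p ∈ D', p) \ D') := ⟨_, rfl⟩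
    have l1 : ∑ D' ∈ DD 𝔓 z R, (∏ p ∈ D', gg m C p) *
        ∑ p ∈ PP 𝔓 z (Q / ∏ p ∈ D', p) \ D', gg m C p * Real.log p =
        ∑ x ∈ Sg, (∏ p ∈ insert x.2 x.1, gg m C p) * Real.log x.2 := by
      rw [hSg, sum_sigma]
      refine sum_congr rfl fun D' _ => ?_
      rw [mul_sum]
      refine sum_congr rfl fun p hp => ?_
      rw [mem_sdiff] at hp
      rw [prod_insert hp.2]
      ring
    have l2 : ∑ D ∈ DD 𝔓 z Q, (∏ p ∈ D, gg m C p) * ∑ p ∈ D, Real.log p =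
        ∑ x ∈ (DD 𝔓 z Q).sigma (fun D => D), (∏ p ∈ x.1, gg m C p) * Real.log x.2 := by
      rw [sum_sigma]
      refine sum_congr rfl fun D _ => ?_
      rw [mul_sum]
    rw [l1, l2]
    obtain ⟨φ, hφ⟩ : ∃ φ : (Σ _ : Finset ℕ, ℕ) → (Σ _ : Finset ℕ, ℕ),
        ∀ x, φ x = ⟨insert x.2 x.1, x.2⟩ := ⟨_, fun _ => rfl⟩
    have hinj : Set.InjOn φ (Sg : Set (Σ _ : Finset ℕ, ℕ)) := by
      rintro ⟨D1, p1⟩ h1 ⟨D2, p2⟩ h2 h12
      rw [mem_coe, hSg, mem_sigma] at h1 h2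
      rw [hφ, hφ] at h12
      simp only [Sigma.mk.inj_iff, heq_eq_eq] at h12
      obtain ⟨ha, rfl⟩ := h12
      have h1' := (mem_sdiff.mp h1.2).2
      have h2' := (mem_sdiff.mp h2.2).2
      simp only at h1' h2'
      have : D1 = D2 := by
        rw [← erase_insert h1', ha, erase_insert h2']
      rw [this]
    have l3 : ∑ x ∈ Sg, (∏ p ∈ insert x.2 x.1, gg m C p) * Real.log x.2 =
        ∑ x ∈ Sg.image φ, (∏ p ∈ x.1, gg m C p) * Real.log x.2 := by
      rw [sum_image hinj]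
      refine sum_congr rfl fun x _ => ?_
      rw [hφ]
    rw [l3]
    refine sum_le_sum_of_subset_of_nonneg ?_ ?_
    · intro x hx
      rw [mem_image] at hx
      obtain ⟨⟨D', p⟩, hx, rfl⟩ := hx
      rw [hSg, mem_sigma, mem_sdiff] at hx
      simp only at hx
      obtain ⟨hD', hp, hpD⟩ := hx
      rw [mem_DD] at hD'
      rw [mem_PP] at hp
      rw [hφ, mem_sigma, mem_DD]
      simp only
      have hq0 : 0 < ∏ p ∈ D', p := prod_pos fun p hp => (mem_PP.mp (hD'.1 hp)).2.1.pos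
      refine ⟨⟨?_, ?_⟩, mem_insert_self _ _⟩
      · intro r hr
        rw [mem_insert] at hr
        rcases hr with rfl | hr
        · rw [mem_PP]
          exact ⟨⟨hp.1.1, hp.1.2.trans (Nat.div_le_self _ _)⟩, hp.2⟩
        · have := hD'.1 hr
          rw [mem_PP] at this ⊢
          exact ⟨⟨this.1.1, this.1.2.trans (Nat.sqrt_le_self Q)⟩, this.2⟩
      · rw [prod_insert hpD]
        exact (Nat.le_div_iff_mul_le hq0).mp hp.1.2
    · intro x hx _
      rw [mem_sigma, mem_DD] at hx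
      refine mul_nonneg (prod_nonneg fun p hp => ?_) (Real.log_natCast_nonneg _)
      have hb := gg_bounds hm.le hC (mem_PP.mp (hx.1.1 hp)).1.1
      linarith [hb.1]
  have hup : ∑ D ∈ DD 𝔓 z Q, (∏ p ∈ D, gg m C p) * ∑ p ∈ D, Real.log p ≤
      (∑ D ∈ DD 𝔓 z Q, ∏ p ∈ D, gg m C p) * Real.log Q := by
    rw [sum_mul]
    refine sum_le_sum fun D hDm => ?_
    rw [mem_DD] at hDm
    refine mul_le_mul_of_nonneg_left ?_ (prod_nonneg fun p hp => ?_)
    · have hq0 : 0 < ∏ p ∈ D, p := prod_pos fun p hp => (mem_PP.mp (hDm.1 hp)).2.1.pos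
      have e1 : Real.log ((∏ p ∈ D, p : ℕ) : ℝ) = ∑ p ∈ D, Real.log p := by
        rw [Nat.cast_prod, Real.log_prod]
        intro p hp
        have := (mem_PP.mp (hDm.1 hp)).2.1.ne_zero
        exact_mod_cast this
      rw [← e1]
      refine Real.log_le_log (by exact_mod_cast hq0) ?_
      exact_mod_cast hDm.2
    · have hb := gg_bounds hm.le hC (mem_PP.mp (hDm.1 hp)).1.1
      linarith [hb.1]
  have hlow : m * c2 / 16 * Q * ∑ D' ∈ DD 𝔓 z R, ∏ p ∈ D', (gg m C p / p) ≤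
      ∑ D' ∈ DD 𝔓 z R, (∏ p ∈ D', gg m C p) *
      ∑ p ∈ PP 𝔓 z (Q / ∏ p ∈ D', p) \ D', gg m C p * Real.log p := by
    rw [mul_sum]
    refine sum_le_sum fun D' hD' => ?_
    have h3 := hinner D' hD'
    rw [mem_DD] at hD'
    have h4 : 0 ≤ ∏ p ∈ D', gg m C p := prod_nonneg fun p hp => by
      have hb := gg_bounds hm.le hC (mem_PP.mp (hD'.1 hp)).1.1
      linarith [hb.1]
    have h5 := mul_le_mul_of_nonneg_left h3 h4
    refine le_trans (le_of_eq ?_) h5
    rw [prod_div_distrib, Nat.cast_prod]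
    ring
  have h3 := h1 R (by omega)
  have h4 : (Real.log Q * (1 / 3)) ^ (m * κ) ≤ (Real.log R) ^ (m * κ) := by
    refine Real.rpow_le_rpow (by positivity) ?_ (by positivity)
    linarith
  rw [Real.mul_rpow hlQ0.le (by norm_num)] at h4
  have h5 := mul_le_mul_of_nonneg_left h4 hc1.le
  have h6 : m * c2 / 16 * Q * (c1 * (Real.log Q ^ (m * κ) * (1 / 3) ^ (m * κ))) ≤
      m * c2 / 16 * Q * ∑ D' ∈ DD 𝔓 z R, ∏ p ∈ D', (gg m C p / p) :=
    mul_le_mul_of_nonneg_left (h5.trans h3) (by positivity)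
  have h7 := h6.trans (hlow.trans (hre.trans hup))
  have h8 : (Real.log Q) ^ (m * κ - 1) * Real.log Q = (Real.log Q) ^ (m * κ) := by
    rw [Real.rpow_sub_one hlQ0.ne', div_mul_cancel₀ _ hlQ0.ne']
  refine le_of_mul_le_mul_right ?_ hlQ0
  refine le_trans (le_of_eq ?_) h7
  rw [← h8]
  ring

end Pool.Agent.X50.SQ
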