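import Mathlib

/-!
Inequalities for the sets of residues of the summands of a sumset which avoids residue classes.
-/

set_option autoImplicit false

namespace Pool.Agent.X50.SQ

open Finset

/-- Hölder's inequality in product form -/
theorem holder {ι : Type*} (s : Finset ι) {k : ℕ} (hk : 0 < k) (f : Fin k → ι → ℝ) (g : ι → ℝ)
    (hf : ∀ i, ∀ D ∈ s, 0 < f i D) (hg : ∀ D ∈ s, 0 ≤ g D) (h : ∀ D ∈ s, g D ^ k ≤ ∏ i, f i D) :
    (∑ D ∈ s, g D) ^ k ≤ ∏ i, ∑ D ∈ s, f i D := by
  rcases s.eq_empty_or_nonempty with rfl | hs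
  · simp [hk.ne']
  set L : Fin k → ℝ := fun i => ∑ D ∈ s, f i D with hL
  have hL0 : ∀ i, 0 < L i := fun i => sum_pos (hf i) hs
  have hk0 : (0 : ℝ) < k := by exact_mod_cast hk
  set M : ℝ := ∏ i, L i with hM
  have hM0 : 0 < M := prod_pos fun i _ => hL0 i
  set e : ℝ := 1 / k with he
  have he0 : 0 < e := by positivity
  have h1 : ∀ D ∈ s, g D / M ^ e ≤ ∑ i, e * (f i D / L i) := by
    intro D hD
    have h2 := Real.geom_mean_le_arith_mean_weighted (univ : Finset (Fin k)) (fun _ => e)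
      (fun i => f i D / L i) (fun _ _ => he0.le)
      (by rw [sum_const, card_univ, Fintype.card_fin, nsmul_eq_mul, he]; field_simp)
      (fun i _ => (div_pos (hf i D hD) (hL0 i)).le)
    refine le_trans ?_ h2
    rw [Real.finsetProd_rpow _ _ (fun i _ => (div_pos (hf i D hD) (hL0 i)).le), prod_div_distrib,
      Real.div_rpow (prod_nonneg fun i _ => (hf i D hD).le) (prod_nonneg fun i _ => (hL0 i).le)]
    refine div_le_div_of_nonneg_right ?_ (Real.rpow_nonneg hM0.le _)
    have h3 : g D = (g D ^ k) ^ e := by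
      rw [← Real.rpow_natCast, ← Real.rpow_mul (hg D hD), he, mul_one_div_cancel hk0.ne',
        Real.rpow_one]
    rw [h3]
    exact Real.rpow_le_rpow (pow_nonneg (hg D hD) _) (h D hD) he0.le
  have h4 : (∑ D ∈ s, g D) / M ^ e ≤ 1 := by
    rw [sum_div]
    refine (sum_le_sum h1).trans ?_
    rw [sum_comm]
    have h5 : ∀ i ∈ (univ : Finset (Fin k)), ∑ D ∈ s, e * (f i D / L i) = e := by
      intro i _
      rw [← mul_sum, ← sum_div, div_self (hL0 i).ne', mul_one]
    rw [sum_congr rfl h5, sum_const, card_univ, Fintype.card_fin, nsmul_eq_mul, he]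
    apply le_of_eq
    field_simp
  rw [div_le_one (Real.rpow_pos_of_pos hM0 _)] at h4
  have h6 := pow_le_pow_left₀ (sum_nonneg hg) h4 k
  refine h6.trans (le_of_eq ?_)
  rw [← Real.rpow_natCast, ← Real.rpow_mul hM0.le, he, one_div_mul_cancel hk0.ne', Real.rpow_one]

/-- AM-GM for the sums of all but one of the numbers -/
theorem amgm {k : ℕ} (hk : 2 ≤ k) (α : Fin k → ℝ) (hα : ∀ i, 0 < α i) :
    ((k : ℝ) - 1) ^ k * ∏ i, α i ≤ ∏ i, (∑ j, α j - α i) := by
  have hk1 : (0 : ℝ) < (k : ℝ) - 1 := by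
    have : (2 : ℝ) ≤ k := by exact_mod_cast hk
    linarith
  set e : ℝ := 1 / ((k : ℝ) - 1) with he
  have he0 : 0 < e := by positivity
  have h1 : ∀ i, ((k : ℝ) - 1) * ∏ j ∈ univ.erase i, α j ^ e ≤ ∑ j, α j - α i := by
    intro i
    have h2 := Real.geom_mean_le_arith_mean_weighted (univ.erase i) (fun _ => e) α
      (fun _ _ => he0.le)
      (by
        rw [sum_const, card_erase_of_mem (mem_univ i), card_univ, Fintype.card_fin, nsmul_eq_mul,
          Nat.cast_sub (by omega), he]
        push_cast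
        field_simp)
      (fun j _ => (hα j).le)
    have h3 := mul_le_mul_of_nonneg_left h2 hk1.le
    refine h3.trans (le_of_eq ?_)
    rw [← mul_sum, ← mul_assoc, he, mul_one_div_cancel hk1.ne', one_mul,
      sum_erase_eq_sub (mem_univ i)]
  have h2 : ∏ i : Fin k, (((k : ℝ) - 1) * ∏ j ∈ univ.erase i, α j ^ e) ≤ ∏ i, (∑ j, α j - α i) := by
    refine prod_le_prod (fun i _ => ?_) fun i _ => h1 i
    exact mul_nonneg hk1.le (prod_nonneg fun j _ => Real.rpow_nonneg (hα j).le _)
  refine le_trans (le_of_eq ?_) h2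
  rw [prod_mul_distrib, prod_const, card_univ, Fintype.card_fin]
  congr 1
  have h3 : ∏ i : Fin k, ∏ j ∈ univ.erase i, α j ^ e = ∏ j : Fin k, ∏ i ∈ univ.erase j, α j ^ e := by
    refine prod_comm' ?_
    intro i j
    simp only [mem_univ, mem_erase, ne_eq, and_true, true_and]
    exact ⟨fun h h' => h h'.symm, fun h h' => h h'.symm⟩
  rw [h3]
  refine prod_congr rfl fun j _ => ?_
  rw [prod_const, card_erase_of_mem (mem_univ j), card_univ, Fintype.card_fin,
    ← Real.rpow_natCast, ← Real.rpow_mul (hα j).le, Nat.cast_sub (by omega), he]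
  push_cast
  rw [one_div_mul_cancel hk1.ne', Real.rpow_one]

/-- the balance inequality -/
theorem balance {k : ℕ} (hk : 2 ≤ k) (p : ℝ) (hp : 4 * (k : ℝ) ^ 4 ≤ p) (α : Fin k → ℝ)
    (hα : ∀ i, 1 ≤ α i) (hsum : ∑ i, α i ≤ p + k - 2) :
    (((k : ℝ) - 1) * (1 - 2 * (k : ℝ) ^ 4 / p)) ^ k ≤ ∏ i, ((p - α i) / α i) := by
  have hk2 : (2 : ℝ) ≤ k := by exact_mod_cast hk
  have hk4 : (0 : ℝ) < (k : ℝ) ^ 4 := by positivity
  have hp0 : 0 < p := by linarith
  have hα0 : ∀ i, 0 < α i := fun i => lt_of_lt_of_le one_pos (hα i)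
  set η : ℝ := 2 * (k : ℝ) ^ 4 / p with hη
  have hη0 : 0 ≤ η := by positivity
  have hη1 : η ≤ 1 / 2 := by
    rw [hη, div_le_div_iff₀ hp0 (by norm_num)]
    linarith
  have hprodα : 0 < ∏ i, α i := prod_pos fun i _ => hα0 i
  rw [prod_div_distrib, le_div_iff₀ hprodα]
  -- lower bounds of sums
  have herase : ∀ i, (k : ℝ) - 1 ≤ ∑ j, α j - α i := by
    intro i
    rw [← sum_erase_eq_sub (mem_univ i)]
    have h1 : ∑ _j ∈ univ.erase i, (1 : ℝ) ≤ ∑ j ∈ univ.erase i, α j := sum_le_sum fun j _ => hα j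
    rw [sum_const, card_erase_of_mem (mem_univ i), card_univ, Fintype.card_fin, nsmul_eq_mul,
      mul_one, Nat.cast_sub (by omega)] at h1
    push_cast at h1
    exact h1
  have hlt : ∀ i, α i ≤ p - 1 := fun i => by
    have := herase i
    linarith
  -- first case
  have case1 : (∀ i, (k : ℝ) - 2 ≤ (p - α i) * η) →
      (((k : ℝ) - 1) * (1 - η)) ^ k * ∏ i, α i ≤ ∏ i, (p - α i) := by
    intro h
    have h1 : ∀ i, (∑ j, α j - α i) * (1 - η) ≤ p - α i := by
      intro i
      have h2 := h i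
      have h3 := hlt i
      have h4 : ∑ j, α j - α i ≤ (p - α i) * (1 + η) := by nlinarith
      have h5 : 0 ≤ 1 - η := by linarith
      calc (∑ j, α j - α i) * (1 - η) ≤ (p - α i) * (1 + η) * (1 - η) :=
            mul_le_mul_of_nonneg_right h4 h5
        _ = (p - α i) * (1 - η ^ 2) := by ring
        _ ≤ (p - α i) * 1 := by
            refine mul_le_mul_of_nonneg_left ?_ (by linarith)
            nlinarith [sq_nonneg η]
        _ = p - α i := mul_one _
    have h2 : ∏ i, ((∑ j, α j - α i) * (1 - η)) ≤ ∏ i, (p - α i) := by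
      refine prod_le_prod (fun i _ => ?_) fun i _ => h1 i
      have := herase i
      exact mul_nonneg (by linarith) (by linarith)
    rw [prod_mul_distrib, prod_const, card_univ, Fintype.card_fin] at h2
    refine le_trans ?_ h2
    rw [mul_pow]
    have h3 := mul_le_mul_of_nonneg_right (amgm hk α hα0) (pow_nonneg (by linarith : 0 ≤ 1 - η) k)
    refine le_trans (le_of_eq ?_) h3
    ring
  rcases Nat.lt_or_ge k 3 with hk3 | hk3
  · refine case1 fun i => ?_
    have hk' : (k : ℝ) ≤ 2 := by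
      have : k ≤ 2 := by omega
      exact_mod_cast this
    have h1 := hlt i
    have h2 : 0 ≤ (p - α i) * η := mul_nonneg (by linarith) hη0
    linarith
  -- a largest element
  have : Nonempty (Fin k) := ⟨⟨0, by omega⟩⟩
  obtain ⟨i0, -, hi0⟩ := exists_max_image (univ : Finset (Fin k)) α univ_nonempty
  set u : ℝ := p - α i0 with hu
  have hk3' : (3 : ℝ) ≤ k := by exact_mod_cast hk3
  have hk3p : (0 : ℝ) < (k : ℝ) ^ 3 := by positivity
  rcases le_or_gt (p / (2 * (k : ℝ) ^ 3)) u with hcase | hcase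
  · refine case1 fun i => ?_
    have h1 : u ≤ p - α i := by
      have := hi0 i (mem_univ i)
      rw [hu]
      linarith
    have h2 : p / (2 * (k : ℝ) ^ 3) * η = k := by
      rw [hη]
      field_simp
    calc (k : ℝ) - 2 ≤ k := by linarith
      _ = p / (2 * (k : ℝ) ^ 3) * η := h2.symm
      _ ≤ (p - α i) * η := mul_le_mul_of_nonneg_right (hcase.trans h1) hη0
  · -- one very large element
    have hu1 : 1 ≤ u := by
      have := hlt i0
      rw [hu]
      linarith
    have hsmall : ∀ j ∈ univ.erase i0, α j ≤ u := by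
      intro j hj
      have h1 : ∑ i ∈ (univ.erase i0).erase j, α i = ∑ i, α i - α i0 - α j := by
        rw [sum_erase_eq_sub hj, sum_erase_eq_sub (mem_univ i0)]
      have h2 : ∑ _i ∈ (univ.erase i0).erase j, (1 : ℝ) ≤ ∑ i ∈ (univ.erase i0).erase j, α i :=
        sum_le_sum fun i _ => hα i
      rw [sum_const, card_erase_of_mem hj, card_erase_of_mem (mem_univ i0), card_univ,
        Fintype.card_fin, nsmul_eq_mul, mul_one, h1] at h2
      have h3 : ((k - 1 - 1 : ℕ) : ℝ) = (k : ℝ) - 2 := by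
        rw [Nat.cast_sub (by omega), Nat.cast_sub (by omega)]
        push_cast
        ring
      rw [h3] at h2
      rw [hu]
      linarith
    have hup : u ≤ p / 2 := by
      have : p / (2 * (k : ℝ) ^ 3) ≤ p / 2 := by
        refine div_le_div_of_nonneg_left hp0.le (by norm_num) ?_
        have : (1 : ℝ) ≤ (k : ℝ) ^ 3 := one_le_pow₀ (by linarith)
        linarith
      linarith
    have hαi0 : 0 < α i0 := hα0 i0
    -- products
    have e1 : ∏ i, (p - α i) = u * ∏ j ∈ univ.erase i0, (p - α j) := by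
      rw [← mul_prod_erase univ (fun i => p - α i) (mem_univ i0)]
    have e2 : ∏ i, α i = α i0 * ∏ j ∈ univ.erase i0, α j :=
      (mul_prod_erase univ α (mem_univ i0)).symm
    have hcard : (univ.erase i0).card = k - 1 := by
      rw [card_erase_of_mem (mem_univ i0), card_univ, Fintype.card_fin]
    have e3 : (p - u) ^ (k - 1) ≤ ∏ j ∈ univ.erase i0, (p - α j) := by
      rw [← hcard, ← prod_const]
      refine prod_le_prod (fun j _ => by linarith) fun j hj => ?_
      have := hsmall j hj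
      linarith
    have e4 : ∏ j ∈ univ.erase i0, α j ≤ u ^ (k - 1) := by
      rw [← hcard, ← prod_const]
      exact prod_le_prod (fun j _ => (hα0 j).le) hsmall
    have e5 : (((k : ℝ) - 1) * (1 - η)) ^ k ≤ (k : ℝ) ^ k := by
      refine pow_le_pow_left₀ (mul_nonneg (by linarith) (by linarith)) ?_ k
      nlinarith
    -- main numerical inequality: k^k * p * u^(k-1) ≤ u * (p-u)^(k-1)
    have e6 : (k : ℝ) ^ k * (p * u ^ (k - 1)) ≤ u * (p - u) ^ (k - 1) := by
      obtain ⟨l, hl⟩ : ∃ l, k = l + 3 := ⟨k - 3, by omega⟩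
      have h1 : k - 1 = l + 2 := by omega
      have hK : (k : ℝ) ^ k = (k : ℝ) ^ (l + 3) := congrArg (fun n => (k : ℝ) ^ n) hl
      rw [h1, hK]
      set K : ℝ := (k : ℝ) with hKd
      have h2 : 2 * K ^ 3 * u ≤ p := by
        rw [lt_div_iff₀ (by positivity)] at hcase
        linarith
      have hK1 : (1 : ℝ) ≤ K ^ 3 := one_le_pow₀ (by linarith)
      have hK27 : (3 : ℝ) ^ 3 ≤ K ^ 3 := pow_le_pow_left₀ (by norm_num) hk3' 3
      have h3 : K ^ 3 * u ≤ p - u := by nlinarith
      have hpu : 0 ≤ p - u := by linarith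
      have h4 : (K ^ 3 * u) ^ l ≤ (p - u) ^ l := pow_le_pow_left₀ (by positivity) h3 _
      have h6 : K ^ 3 * u ≤ p - 2 * u := by
        have : 27 * u ≤ K ^ 3 * u := mul_le_mul_of_nonneg_right (by linarith) (by linarith)
        linarith
      have h5 : K ^ 3 * u * p ≤ (p - u) ^ 2 := by
        calc K ^ 3 * u * p ≤ (p - 2 * u) * p := mul_le_mul_of_nonneg_right h6 hp0.le
          _ ≤ (p - u) ^ 2 := by nlinarith [sq_nonneg u]
      have h9 : K ^ (l + 3) ≤ K ^ (3 * l + 3) := pow_le_pow_right₀ (by linarith) (by omega)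
      have h10 : (K ^ 3 * u) ^ l * (K ^ 3 * u * p) ≤ (p - u) ^ l * (p - u) ^ 2 :=
        mul_le_mul h4 h5 (by positivity) (by positivity)
      calc K ^ (l + 3) * (p * u ^ (l + 2)) ≤ K ^ (3 * l + 3) * (p * u ^ (l + 2)) :=
            mul_le_mul_of_nonneg_right h9 (by positivity)
        _ = u * ((K ^ 3 * u) ^ l * (K ^ 3 * u * p)) := by
            rw [pow_add K (3 * l) 3, pow_mul, mul_pow]
            ring
        _ ≤ u * ((p - u) ^ l * (p - u) ^ 2) := mul_le_mul_of_nonneg_left h10 (by linarith)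
        _ = u * (p - u) ^ (l + 2) := by rw [pow_add]
    have e7 : α i0 ≤ p := by
      have := hlt i0
      linarith
    rw [e1, e2]
    have hp1 : 0 ≤ ∏ j ∈ univ.erase i0, α j := prod_nonneg fun j _ => (hα0 j).le
    calc (((k : ℝ) - 1) * (1 - η)) ^ k * (α i0 * ∏ j ∈ univ.erase i0, α j)
        ≤ (k : ℝ) ^ k * (p * u ^ (k - 1)) := by
          refine mul_le_mul e5 ?_ (by positivity) (by positivity)
          exact mul_le_mul e7 e4 hp1 hp0.le
      _ ≤ u * (p - u) ^ (k - 1) := e6
      _ ≤ u * ∏ j ∈ univ.erase i0, (p - α j) := mul_le_mul_of_nonneg_left e3 (by linarith)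

end Pool.Agent.X50.SQ
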