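import Pool.Agent.X50.LSv.Lsk
import Pool.Agent.X50.LSv.Ana
import Pool.Agent.X50.LSv.Comb

/-!
The large sieve for several sets whose sets of residues are in balance.
-/

set_option autoImplicit false
set_option maxHeartbeats 4000000

namespace Pool.Agent.X50.SQ

open Finset
open scoped Pointwise

/-- the residues of a set -/
def res (A : Finset ℕ) (p : ℕ) : Finset (ZMod p) := A.image fun n : ℕ => (n : ZMod p)

theorem res_nonempty {A : Finset ℕ} (hA : A.Nonempty) (p : ℕ) : (res A p).Nonempty :=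
  hA.image _

theorem res_card_le {A : Finset ℕ} {p : ℕ} (hp : 0 < p) : (res A p).card ≤ p := by
  have : NeZero p := ⟨hp.ne'⟩
  have := card_le_univ (res A p)
  rwa [ZMod.card] at this

/-- the sums of residues -/
def tot {k : ℕ} {p : ℕ} (R : Fin k → Finset (ZMod p)) : Finset (ZMod p) :=
  (Fintype.piFinset R).image fun f => ∑ i, f i

theorem tot_nonempty {k : ℕ} {p : ℕ} {R : Fin k → Finset (ZMod p)} (hR : ∀ i, (R i).Nonempty) :
    (tot R).Nonempty := by
  unfold tot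
  refine Nonempty.image ?_ _
  exact Fintype.piFinset_nonempty.mpr hR

/-- the theorem of Cauchy and Davenport for several sets -/
theorem cd {p : ℕ} (hp : p.Prime) : ∀ {k : ℕ} (R : Fin k → Finset (ZMod p)),
    (∀ i, (R i).Nonempty) → min p (∑ i, (R i).card + 1 - k) ≤ (tot R).card := by
  intro k
  induction k with
  | zero =>
    intro R _
    have h1 : (tot R).Nonempty := tot_nonempty (fun i => i.elim0)
    have h2 := card_pos.mpr h1
    simp only [univ_eq_empty, sum_empty]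
    omega
  | succ k ih =>
    intro R hR
    have h1 := ih (fun i => R i.succ) (fun i => hR i.succ)
    have h2 : (R 0 + tot (fun i : Fin k => R i.succ)) ⊆ tot R := by
      intro x hx
      rw [mem_add] at hx
      obtain ⟨a, ha, b, hb, rfl⟩ := hx
      unfold tot at hb
      rw [mem_image] at hb
      obtain ⟨f, hf, rfl⟩ := hb
      unfold tot
      rw [mem_image]
      refine ⟨Fin.cons a f, ?_, ?_⟩
      · rw [Fintype.mem_piFinset]
        intro i
        refine Fin.cases ?_ (fun j => ?_) i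
        · exact ha
        · exact (Fintype.mem_piFinset.mp hf) j
      · rw [Fin.sum_univ_succ]
        rfl
    have h3 := ZMod.cauchy_davenport hp (hR 0) (tot_nonempty (R := fun i : Fin k => R i.succ)
      (fun i => hR i.succ))
    have h4 := card_le_card h2
    have h5 := card_pos.mpr (hR 0)
    have h6 := card_pos.mpr (tot_nonempty (R := fun i : Fin k => R i.succ) (fun i => hR i.succ))
    rw [Fin.sum_univ_succ]
    omega

/-- the large sieve for one set -/
theorem one_set {N U Q : ℕ} {A : Finset ℕ} (hA : A ⊆ Ioc U (U + N)) (hne : A.Nonempty)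
    (P : Finset ℕ) (𝒟 : Finset (Finset ℕ)) (hP : ∀ t ∈ P, t.Prime) (h𝒟 : ∀ D ∈ 𝒟, D ⊆ P)
    (hD : ∀ D ∈ 𝒟, ∏ t ∈ D, t ≤ Q) :
    (A.card : ℝ) * ∑ D ∈ 𝒟, ∏ t ∈ D, (((t : ℝ) - (res A t).card) / (res A t).card) ≤
      6 * ((N : ℝ) + (Q : ℝ) ^ 2) := by
  classical
  have h1 := LSv.lsk 1 N Q (fun _ => U) P 𝒟 (A.image fun n => fun _ : Fin 1 => n)
    (fun t => (res A t).image fun x => fun _ : Fin 1 => x)
    (fun t => ((t : ℝ) - (res A t).card) / (res A t).card) hP h𝒟 ?_ ?_ ?_ ?_ hD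
  · rw [pow_one, card_image_of_injective] at h1
    · exact h1
    · intro a b h
      exact congrFun h 0
  · intro z hz i
    rw [mem_image] at hz
    obtain ⟨n, hn, rfl⟩ := hz
    exact hA hn
  · intro t ht
    refine div_nonneg ?_ (Nat.cast_nonneg _)
    rw [sub_nonneg]
    exact_mod_cast res_card_le (hP t ht).pos
  · intro t ht
    rw [card_image_of_injective, pow_one]
    · have h2 : (0 : ℝ) < (res A t).card := by exact_mod_cast card_pos.mpr (res_nonempty hne t)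
      apply le_of_eq
      field_simp
      ring
    · intro a b h
      exact congrFun h 0
  · intro z hz t _
    rw [mem_image] at hz
    obtain ⟨n, hn, rfl⟩ := hz
    rw [mem_image]
    exact ⟨(n : ZMod t), mem_image_of_mem _ hn, rfl⟩

variable {𝔓 : ℕ → Prop} [DecidablePred 𝔓]

/-- the primes which are left out -/
noncomputable def zk (k : ℕ) : ℕ := zz (2 * (k : ℝ) ^ 4)

/-- The bound for the product of the sizes. -/
theorem core {κ : ℝ} (hκ : 0 ≤ κ) (hD : Dens 𝔓 κ) (k : ℕ) (hk : 2 ≤ k) :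
    ∃ (C : ℝ) (N₀ : ℕ), 0 < C ∧ ∀ N : ℕ, N₀ ≤ N → ∀ (U : Fin k → ℕ) (A : Fin k → Finset ℕ),
      (∀ i, A i ⊆ Ioc (U i) (U i + N)) → (∀ i, (A i).Nonempty) →
      (∀ p ∈ PP 𝔓 (zk k) (Nat.sqrt N), (∑ i, (res (A i) p).card : ℕ) + 2 ≤ p + k) →
      ∏ i, ((A i).card : ℝ) ≤
        C * (N : ℝ) ^ ((k : ℝ) / 2) * (Real.log N) ^ ((k : ℝ) * (1 - ((k : ℝ) - 1) * κ)) := by
  have hk2 : (2 : ℝ) ≤ k := by exact_mod_cast hk
  have hm : (0 : ℝ) < (k : ℝ) - 1 := by linarith
  have hC0 : (0 : ℝ) ≤ 2 * (k : ℝ) ^ 4 := by positivity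
  obtain ⟨c, Q₀, hc, hQ₀⟩ := sum_lower hD hm hC0 hκ
  set s : ℝ := ((k : ℝ) - 1) * κ - 1 with hs
  set c' : ℝ := c * (1 / 3) ^ |s| / 2 with hc'
  have hc'0 : 0 < c' := by positivity
  refine ⟨(12 / c') ^ k, (Q₀ + 100) ^ 2, by positivity, ?_⟩
  intro N hN U A hA hne hres
  set Q := Nat.sqrt N with hQ
  have hQge : Q₀ + 100 ≤ Q := by
    rw [hQ, Nat.le_sqrt']
    exact hN
  have hQQ : Q * Q ≤ N := Nat.sqrt_le N
  have hNQ : N < (Q + 1) * (Q + 1) := Nat.lt_succ_sqrt N
  have hQ3 : 3 ≤ Q := by omega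
  have hN3 : 3 ≤ N := by nlinarith
  have hQ0 : (0 : ℝ) < Q := by
    have : 0 < Q := by omega
    exact_mod_cast this
  have hN0 : (0 : ℝ) < N := by
    have : 0 < N := by omega
    exact_mod_cast this
  have hlQ := log_ge_one hQ3
  have hlN := log_ge_one hN3
  have hlQN : Real.log Q ≤ Real.log N := by
    refine Real.log_le_log hQ0 ?_
    have : Q ≤ N := by nlinarith
    exact_mod_cast this
  have hQ100 : (100 : ℝ) ≤ Q := by
    have : 100 ≤ Q := by omega
    exact_mod_cast this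
  have hlNQ : Real.log N ≤ 3 * Real.log Q := by
    have e1 : (N : ℝ) ≤ (Q : ℝ) ^ 3 := by
      have : (N : ℝ) ≤ ((Q : ℝ) + 1) * (Q + 1) := by exact_mod_cast hNQ.le
      nlinarith [sq_nonneg ((Q : ℝ) - 2)]
    have e2 := Real.log_le_log hN0 e1
    rw [Real.log_pow] at e2
    push_cast at e2
    exact e2
  -- the sums for the single sets
  set 𝒟 := DD 𝔓 (zk k) Q with h𝒟
  set P := PP 𝔓 (zk k) Q with hP
  have hPp : ∀ t ∈ P, t.Prime := fun t ht => (mem_PP.mp ht).2.1
  have hsub : ∀ D ∈ 𝒟, D ⊆ P := fun D hDm => (mem_DD.mp hDm).1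
  have hprod : ∀ D ∈ 𝒟, ∏ t ∈ D, t ≤ Q := fun D hDm => (mem_DD.mp hDm).2
  set w : Fin k → ℕ → ℝ := fun i t => ((t : ℝ) - (res (A i) t).card) / (res (A i) t).card with hw
  have hone : ∀ i, ((A i).card : ℝ) * ∑ D ∈ 𝒟, ∏ t ∈ D, w i t ≤ 12 * N := by
    intro i
    have h1 := one_set (hA i) (hne i) P 𝒟 hPp hsub hprod
    refine h1.trans ?_
    have : ((Q : ℝ)) ^ 2 ≤ N := by
      rw [sq]
      exact_mod_cast hQQ
    linarith
  -- facts at a prime
  have hcard : ∀ i t, t ∈ P → (1 : ℝ) ≤ (res (A i) t).card := by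
    intro i t _
    exact_mod_cast card_pos.mpr (res_nonempty (hne i) t)
  have hsum : ∀ t ∈ P, ∑ i, ((res (A i) t).card : ℝ) ≤ t + k - 2 := by
    intro t ht
    have h1 := hres t ht
    have h2 : ((∑ i, (res (A i) t).card : ℕ) : ℝ) + 2 ≤ t + k := by exact_mod_cast h1
    rw [Nat.cast_sum] at h2
    linarith
  have hbig : ∀ t ∈ P, 4 * (k : ℝ) ^ 4 ≤ t := by
    intro t ht
    have h1 := (mem_PP.mp ht).1.1
    unfold zk zz at h1
    have h2 : ((⌈2 * (2 * (k : ℝ) ^ 4)⌉₊ + 3 : ℕ) : ℝ) < t := by exact_mod_cast h1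
    have h3 := Nat.le_ceil (2 * (2 * (k : ℝ) ^ 4))
    push_cast at h2
    linarith
  have hltp : ∀ i, ∀ t ∈ P, ((res (A i) t).card : ℝ) ≤ t - 1 := by
    intro i t ht
    have h1 : ∑ j, ((res (A j) t).card : ℝ) - (res (A i) t).card ≥ k - 1 := by
      rw [ge_iff_le, ← sum_erase_eq_sub (mem_univ i)]
      have h2 : ∑ _j ∈ univ.erase i, (1 : ℝ) ≤ ∑ j ∈ univ.erase i, ((res (A j) t).card : ℝ) :=
        sum_le_sum fun j _ => hcard j t ht
      rw [sum_const, card_erase_of_mem (mem_univ i), card_univ, Fintype.card_fin, nsmul_eq_mul,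
        mul_one, Nat.cast_sub (by omega)] at h2
      push_cast at h2
      exact h2
    have h3 := hsum t ht
    linarith
  have hwpos : ∀ i, ∀ t ∈ P, 0 < w i t := by
    intro i t ht
    have h1 := hcard i t ht
    have h2 := hltp i t ht
    exact div_pos (by linarith) (by linarith)
  have hg : ∀ t ∈ P, gg ((k : ℝ) - 1) (2 * (k : ℝ) ^ 4) t ^ k ≤ ∏ i, w i t := by
    intro t ht
    have := balance hk (t : ℝ) (hbig t ht) (fun i => ((res (A i) t).card : ℝ))
      (fun i => hcard i t ht) (hsum t ht)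
    exact this
  have hgpos : ∀ t ∈ P, 0 ≤ gg ((k : ℝ) - 1) (2 * (k : ℝ) ^ 4) t := by
    intro t ht
    have := gg_bounds hm.le hC0 (mem_PP.mp ht).1.1
    linarith [this.1]
  have hhol := holder 𝒟 (by omega : 0 < k) (fun i D => ∏ t ∈ D, w i t)
    (fun D => ∏ t ∈ D, gg ((k : ℝ) - 1) (2 * (k : ℝ) ^ 4) t)
    (fun i D hDm => prod_pos fun t ht => hwpos i t (hsub D hDm ht))
    (fun D hDm => prod_nonneg fun t ht => hgpos t (hsub D hDm ht))
    (fun D hDm => by
      rw [← prod_pow, prod_comm]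
      exact prod_le_prod (fun t ht => pow_nonneg (hgpos t (hsub D hDm ht)) _)
        fun t ht => hg t (hsub D hDm ht))
  have hlow := hQ₀ Q (by omega)
  have hlow' : c' * (N : ℝ) ^ (1 / 2 : ℝ) * (Real.log N) ^ s ≤
      ∑ D ∈ 𝒟, ∏ t ∈ D, gg ((k : ℝ) - 1) (2 * (k : ℝ) ^ 4) t := by
    refine le_trans ?_ hlow
    have e1 : (N : ℝ) ^ (1 / 2 : ℝ) ≤ 2 * Q := by
      rw [← Real.sqrt_eq_rpow, Real.sqrt_le_left (by positivity)]
      have : (N : ℝ) ≤ ((Q : ℝ) + 1) * (Q + 1) := by exact_mod_cast hNQ.le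
      nlinarith
    have hlN0 : 0 < Real.log N := by linarith
    have hlQ0 : 0 < Real.log Q := by linarith
    have e2 : (1 / 3) ^ |s| * (Real.log N) ^ s ≤ (Real.log Q) ^ s := by
      rcases le_or_gt 0 s with hs0 | hs0
      · rw [abs_of_nonneg hs0, ← Real.mul_rpow (by norm_num) hlN0.le]
        refine Real.rpow_le_rpow (by positivity) ?_ hs0
        linarith
      · have e3 : (Real.log N) ^ s ≤ (Real.log Q) ^ s :=
          Real.rpow_le_rpow_of_nonpos hlQ0 hlQN hs0.le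
        have e4 : (1 / 3 : ℝ) ^ |s| ≤ 1 :=
          Real.rpow_le_one (by norm_num) (by norm_num) (abs_nonneg s)
        calc (1 / 3) ^ |s| * (Real.log N) ^ s ≤ 1 * (Real.log Q) ^ s :=
              mul_le_mul e4 e3 (Real.rpow_nonneg hlN0.le _) (by norm_num)
          _ = _ := one_mul _
    calc c' * (N : ℝ) ^ (1 / 2 : ℝ) * (Real.log N) ^ s
        = (c / 2 * (N : ℝ) ^ (1 / 2 : ℝ)) * ((1 / 3) ^ |s| * (Real.log N) ^ s) := by
          rw [hc']; ring
      _ ≤ (c / 2 * (2 * Q)) * (Real.log Q) ^ s := by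
          refine mul_le_mul ?_ e2 (by positivity) (by positivity)
          exact mul_le_mul_of_nonneg_left e1 (by positivity)
      _ = c * Q * (Real.log Q) ^ s := by ring
  set X : ℝ := c' * (N : ℝ) ^ (1 / 2 : ℝ) * (Real.log N) ^ s with hX
  have hlN0 : 0 < Real.log N := by linarith
  have hX0 : 0 < X := by positivity
  have h1 : (∏ i, ((A i).card : ℝ)) * X ^ k ≤ (12 * N) ^ k := by
    have h2 : ∏ i, (((A i).card : ℝ) * ∑ D ∈ 𝒟, ∏ t ∈ D, w i t) ≤ ∏ _i : Fin k, (12 * (N : ℝ)) := by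
      refine prod_le_prod (fun i _ => ?_) fun i _ => hone i
      exact mul_nonneg (Nat.cast_nonneg _) (sum_nonneg fun D hDm =>
        prod_nonneg fun t ht => (hwpos i t (hsub D hDm ht)).le)
    rw [prod_mul_distrib, prod_const, card_univ, Fintype.card_fin] at h2
    refine le_trans ?_ h2
    refine mul_le_mul_of_nonneg_left ?_ (prod_nonneg fun i _ => Nat.cast_nonneg _)
    refine le_trans ?_ hhol
    exact pow_le_pow_left₀ hX0.le hlow' k
  have h2 : (12 * (N : ℝ)) ^ k = (12 / c') ^ k * (N : ℝ) ^ ((k : ℝ) / 2) *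
      (Real.log N) ^ ((k : ℝ) * (1 - ((k : ℝ) - 1) * κ)) * X ^ k := by
    have e1 : ((k : ℝ) * (1 - ((k : ℝ) - 1) * κ)) = -s * k := by rw [hs]; ring
    have e2 : (N : ℝ) ^ ((k : ℝ) / 2) = ((N : ℝ) ^ (1 / 2 : ℝ)) ^ k := by
      rw [← Real.rpow_natCast, ← Real.rpow_mul hN0.le]
      congr 1
      ring
    have e3 : (Real.log N) ^ (-s * k) = ((Real.log N) ^ (-s)) ^ k := by
      rw [← Real.rpow_natCast, ← Real.rpow_mul hlN0.le]
    rw [e1, e2, e3, ← mul_pow, ← mul_pow, ← mul_pow]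
    congr 1
    rw [hX, Real.rpow_neg hlN0.le]
    have e4 : (N : ℝ) ^ (1 / 2 : ℝ) * (N : ℝ) ^ (1 / 2 : ℝ) = N := by
      rw [← Real.rpow_add hN0]
      norm_num
    have e5 : (Real.log N) ^ s ≠ 0 := (Real.rpow_pos_of_pos hlN0 _).ne'
    field_simp
    rw [sq, e4]
  rw [h2] at h1
  exact le_of_mul_le_mul_right h1 (by positivity)

end Pool.Agent.X50.SQ
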