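import Pool.Agent.X50.LSv.Core
import Pool.Agent.H452R2.Om.Mert
import Pool.Agent.Helper799.OB1

/-!
The primes `1` modulo `4`.
-/

set_option autoImplicit false
set_option maxHeartbeats 4000000

namespace Pool.Agent.X50.SQ

open Finset

theorem dens_four : Dens (fun p => p % 4 = 1) (1 / 2) := by
  constructor
  · refine ⟨(Real.log 6 + 16) / 2, fun y hy => ?_⟩
    have h1 := (Pool.Agent.H452R2.Om.Mert.sum_gg_le y).trans
      (Pool.Agent.H452R2.Om.Mert.prod_upper y)
    have hly := Pool.Agent.H452R2.Om.Mert.log_pos3 y hy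
    have hy0 : (0 : ℝ) < y := by
      have : 0 < y := by omega
      exact_mod_cast this
    have h2 : Real.log y ≤ Real.log (y + 1) := Real.log_le_log hy0 (by linarith)
    have h3 : Real.log y / 6 ≤ Real.exp (2 * ∑ p ∈ Pool.Agent.H452R2.Om.OP (fun p => p % 4 = 1) y,
        1 / (p:ℝ) + 16) := by
      linarith
    have h4 := Real.log_le_log (by positivity) h3
    rw [Real.log_exp, Real.log_div hly.ne' (by norm_num)] at h4
    have h5 : ∑ p ∈ Pool.Agent.H452R2.Om.OP (fun p => p % 4 = 1) y, 1 / (p:ℝ) ≤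
        ∑ p ∈ PP (fun p => p % 4 = 1) 0 y, 1 / (p : ℝ) := by
      refine sum_le_sum_of_subset_of_nonneg ?_ fun _ _ _ => by positivity
      intro p hp
      unfold Pool.Agent.H452R2.Om.OP at hp
      rw [mem_filter, mem_Icc] at hp
      rw [mem_PP]
      exact ⟨⟨by omega, hp.1.2⟩, hp.2⟩
    linarith
  · obtain ⟨Y₁, hY₁⟩ := Filter.eventually_atTop.mp Pool.Agent.Helper799.OB.theta_window
    refine ⟨1 / 16, 2 * Y₁ + 4, by norm_num, fun Y hY => ?_⟩
    have h1 := hY₁ (Y / 2) (by omega)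
    have h2 : ∑ p ∈ Pool.Agent.Helper799.OB.PW (Y / 2), Real.log p ≤
        ∑ p ∈ PP (fun p => p % 4 = 1) 0 Y, Real.log p := by
      refine sum_le_sum_of_subset_of_nonneg ?_ fun p _ _ => Real.log_natCast_nonneg p
      intro p hp
      unfold Pool.Agent.Helper799.OB.PW at hp
      rw [mem_filter, mem_Ioc] at hp
      rw [mem_PP]
      exact ⟨⟨by omega, by omega⟩, hp.2⟩
    have h3 : (Y : ℝ) ≤ 4 * ((Y / 2 : ℕ) : ℝ) := by
      have : Y ≤ 4 * (Y / 2) := by omega
      exact_mod_cast this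
    linarith

/-- a square root of `-1` -/
theorem exists_root {p : ℕ} (hp : p.Prime) (h4 : p % 4 = 1) : ∃ x : ZMod p, x ^ 2 = -1 := by
  haveI : Fact p.Prime := ⟨hp⟩
  have h1 : IsSquare (-1 : ZMod p) := by
    rw [ZMod.exists_sq_eq_neg_one_iff]
    omega
  obtain ⟨x, hx⟩ := h1
  exact ⟨x, by rw [sq, ← hx]⟩

/-- bounds for the numbers -/
theorem small_prod {k : ℕ} (e : ℝ) (hk : 0 < k) : ∃ N₁ : ℕ, ∀ N : ℕ, N₁ ≤ N →
    (((2 * (Nat.sqrt (Nat.sqrt N) + 1) : ℕ) : ℝ)) ^ k ≤
      8 ^ k * (N : ℝ) ^ ((k : ℝ) / 2) * (Real.log N) ^ e := by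
  have hk0 : (0 : ℝ) < k := by exact_mod_cast hk
  have h1 := isLittleO_log_rpow_rpow_atTop (r := -e) (s := (k : ℝ) / 4) (by positivity)
  have h2 := (h1.bound (c := 1) one_pos)
  have h3 := (tendsto_natCast_atTop_atTop (R := ℝ)).eventually h2
  obtain ⟨N₁, hN₁⟩ := Filter.eventually_atTop.mp h3
  refine ⟨N₁ + 3, fun N hN => ?_⟩
  have h4 := hN₁ N (by omega)
  have hN3 : 3 ≤ N := by omega
  have hlN := log_ge_one hN3
  have hlN0 : 0 < Real.log N := by linarith
  have hN0 : (0 : ℝ) < N := by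
    have : 0 < N := by omega
    exact_mod_cast this
  rw [Real.norm_of_nonneg (by positivity), Real.norm_of_nonneg (by positivity), one_mul] at h4
  have h5 : (Nat.sqrt (Nat.sqrt N) : ℝ) ≤ (N : ℝ) ^ (1 / 4 : ℝ) := by
    have e1 : (Nat.sqrt (Nat.sqrt N)) ^ 4 ≤ N := by
      have a1 := Nat.sqrt_le' (Nat.sqrt N)
      have a2 := Nat.sqrt_le' N
      calc (Nat.sqrt (Nat.sqrt N)) ^ 4 = ((Nat.sqrt (Nat.sqrt N)) ^ 2) ^ 2 := by ring
        _ ≤ (Nat.sqrt N) ^ 2 := Nat.pow_le_pow_left a1 2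
        _ ≤ N := a2
    have e2 : ((Nat.sqrt (Nat.sqrt N) : ℝ)) ^ 4 ≤ N := by exact_mod_cast e1
    have e3 : (Nat.sqrt (Nat.sqrt N) : ℝ) = (((Nat.sqrt (Nat.sqrt N) : ℝ)) ^ 4) ^ (1 / 4 : ℝ) := by
      rw [← Real.rpow_natCast, ← Real.rpow_mul (Nat.cast_nonneg _)]
      norm_num
    rw [e3]
    exact Real.rpow_le_rpow (by positivity) e2 (by norm_num)
  have h6 : (1 : ℝ) ≤ (N : ℝ) ^ (1 / 4 : ℝ) := by
    refine Real.one_le_rpow ?_ (by norm_num)
    have : 1 ≤ N := by omega
    exact_mod_cast this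
  have h7 : (((2 * (Nat.sqrt (Nat.sqrt N) + 1) : ℕ) : ℝ)) ≤ 8 * (N : ℝ) ^ (1 / 4 : ℝ) := by
    push_cast
    linarith
  refine (pow_le_pow_left₀ (by positivity) h7 k).trans ?_
  rw [mul_pow, mul_assoc]
  refine mul_le_mul_of_nonneg_left ?_ (by positivity)
  have e4 : ((N : ℝ) ^ (1 / 4 : ℝ)) ^ k = (N : ℝ) ^ ((k : ℝ) / 4) := by
    rw [← Real.rpow_natCast, ← Real.rpow_mul hN0.le]
    congr 1
    ring
  have e5 : (N : ℝ) ^ ((k : ℝ) / 2) = (N : ℝ) ^ ((k : ℝ) / 4) * (N : ℝ) ^ ((k : ℝ) / 4) := by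
    rw [← Real.rpow_add hN0]
    congr 1
    ring
  rw [e4, e5]
  have e6 : 1 ≤ (N : ℝ) ^ ((k : ℝ) / 4) * (Real.log N) ^ e := by
    rw [Real.rpow_neg hlN0.le] at h4
    have e7 : 0 < (Real.log N) ^ e := Real.rpow_pos_of_pos hlN0 _
    have := mul_le_mul_of_nonneg_right h4 e7.le
    rwa [inv_mul_cancel₀ e7.ne'] at this
  have e8 : 0 ≤ (N : ℝ) ^ ((k : ℝ) / 4) := by positivity
  calc (N : ℝ) ^ ((k : ℝ) / 4) = (N : ℝ) ^ ((k : ℝ) / 4) * 1 := (mul_one _).symm
    _ ≤ (N : ℝ) ^ ((k : ℝ) / 4) * ((N : ℝ) ^ ((k : ℝ) / 4) * (Real.log N) ^ e) :=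
        mul_le_mul_of_nonneg_left e6 e8
    _ = _ := by ring

/-- From a condition on the residues of large sets to the bound. `Bad` is the property of a family
that is inherited by subfamilies and implies the balance of the residues if one of the sets
consists of large numbers. -/
theorem reduce {𝔓 : ℕ → Prop} [DecidablePred 𝔓] {κ : ℝ} (hκ : 0 ≤ κ) (hD : Dens 𝔓 κ)
    (k : ℕ) (hk : 2 ≤ k) (G : (Fin k → Finset ℕ) → Prop)
    (hG : ∀ A A' : Fin k → Finset ℕ, (∀ i, A' i ⊆ A i) → G A → G A')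
    (hres : ∀ (A : Fin k → Finset ℕ) (Q : ℕ), G A → (∀ i, (A i).Nonempty) →
      (∃ i, ∀ n ∈ A i, Q < n ^ 2) → ∀ p : ℕ, p ≤ Q → 2 < p → p.Prime → 𝔓 p →
      (∑ i, (res (A i) p).card : ℕ) + 2 ≤ p + k) :
    ∃ (C : ℝ) (N₀ : ℕ), 0 < C ∧ ∀ N : ℕ, N₀ ≤ N → ∀ (U : Fin k → ℕ) (A : Fin k → Finset ℕ),
      (∀ i, A i ⊆ Ioc (U i) (U i + N)) → G A →
      ∏ i, ((A i).card : ℝ) ≤
        C * (N : ℝ) ^ ((k : ℝ) / 2) * (Real.log N) ^ ((k : ℝ) * (1 - ((k : ℝ) - 1) * κ)) := by
  classical
  obtain ⟨C, N₀, hC, hcore⟩ := core hκ hD k hk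
  obtain ⟨N₁, hsmall⟩ := small_prod (k := k) ((k : ℝ) * (1 - ((k : ℝ) - 1) * κ)) (by omega)
  refine ⟨2 * C + 8 ^ k, N₀ + N₁ + 3, by positivity, ?_⟩
  intro N hN U A hA hGA
  have hN3 : 3 ≤ N := by omega
  have hlN := log_ge_one hN3
  have hlN0 : 0 < Real.log N := by linarith
  set E : ℝ := (N : ℝ) ^ ((k : ℝ) / 2) * (Real.log N) ^ ((k : ℝ) * (1 - ((k : ℝ) - 1) * κ)) with hE
  have hE0 : 0 ≤ E := by positivity
  have hgoal : ∀ x : ℝ, x * (N : ℝ) ^ ((k : ℝ) / 2) *
      (Real.log N) ^ ((k : ℝ) * (1 - ((k : ℝ) - 1) * κ)) = x * E := fun x => by rw [hE]; ring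
  rw [hgoal]
  by_cases hne : ∀ i, (A i).Nonempty
  · haveI : Nonempty (Fin k) := ⟨⟨0, by omega⟩⟩
    obtain ⟨i0, -, hi0⟩ := exists_max_image (univ : Finset (Fin k)) (fun i => (A i).card)
      univ_nonempty
    set Q := Nat.sqrt N with hQ
    set R := Nat.sqrt Q + 1 with hR
    rcases Nat.lt_or_ge (A i0).card (2 * R) with hc | hc
    · have h1 : ∏ i, ((A i).card : ℝ) ≤ (((2 * R : ℕ) : ℝ)) ^ k := by
        have h2 : ∏ i, ((A i).card : ℝ) ≤ ∏ _i : Fin k, ((2 * R : ℕ) : ℝ) := by
          refine prod_le_prod (fun i _ => Nat.cast_nonneg _) fun i hi => ?_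
          have := (hi0 i hi).trans hc.le
          exact_mod_cast this
        rwa [prod_const, card_univ, Fintype.card_fin] at h2
      have h3 := hsmall N (by omega)
      rw [hgoal] at h3
      have h4 : 0 ≤ 2 * C * E := by positivity
      have h5 := h1.trans h3
      linarith
    · set A' : Fin k → Finset ℕ := Function.update A i0 ((A i0).filter fun n => R ≤ n) with hA'
      have hsub : ∀ i, A' i ⊆ A i := by
        intro i
        rw [hA']
        by_cases h : i = i0
        · subst h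
          rw [Function.update_self]
          exact filter_subset _ _
        · rw [Function.update_of_ne h]
      have hcard : (A i0).card ≤ 2 * (A' i0).card := by
        have h1 : (A i0).card ≤ (A' i0).card + R := by
          have h2 := card_filter_add_card_filter_not (s := A i0) (fun n => R ≤ n)
          have h3 : ((A i0).filter fun n => ¬ R ≤ n).card ≤ R := by
            have : ((A i0).filter fun n => ¬ R ≤ n) ⊆ range R := by
              intro n hn
              rw [mem_filter] at hn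
              rw [mem_range]
              omega
            exact (card_le_card this).trans (card_range R).le
          have h4 : (A' i0) = (A i0).filter fun n => R ≤ n := by
            rw [hA', Function.update_self]
          rw [h4]
          omega
        omega
      have hne' : ∀ i, (A' i).Nonempty := by
        intro i
        by_cases h : i = i0
        · subst h
          rw [← card_pos]
          have := card_pos.mpr (hne i)
          omega
        · rw [hA', Function.update_of_ne h]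
          exact hne i
      have h1 := hcore N (by omega) U A' (fun i => (hsub i).trans (hA i)) hne' ?_
      · rw [hgoal] at h1
        have h2 : ∏ i, ((A i).card : ℝ) ≤ 2 * ∏ i, ((A' i).card : ℝ) := by
          rw [← mul_prod_erase univ (fun i => ((A i).card : ℝ)) (mem_univ i0),
            ← mul_prod_erase univ (fun i => ((A' i).card : ℝ)) (mem_univ i0), ← mul_assoc]
          have h3 : ∏ i ∈ univ.erase i0, ((A' i).card : ℝ) = ∏ i ∈ univ.erase i0, ((A i).card : ℝ) := by
            refine prod_congr rfl fun i hi => ?_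
            rw [hA', Function.update_of_ne (ne_of_mem_erase hi)]
          rw [h3]
          refine mul_le_mul_of_nonneg_right ?_ (prod_nonneg fun i _ => Nat.cast_nonneg _)
          exact_mod_cast hcard
        have h4 : 0 ≤ 8 ^ k * E := by positivity
        linarith
      · intro p hp
        rw [mem_PP] at hp
        refine hres A' Q (hG A A' hsub hGA) hne' ⟨i0, ?_⟩ p hp.1.2 ?_ hp.2.1 hp.2.2
        · intro n hn
          have h4 : (A' i0) = (A i0).filter fun n => R ≤ n := by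
            rw [hA', Function.update_self]
          rw [h4, mem_filter] at hn
          have h5 : Q < R * R := Nat.lt_succ_sqrt Q
          calc Q < R * R := h5
            _ ≤ n * n := Nat.mul_le_mul hn.2 hn.2
            _ = n ^ 2 := by ring
        · have : zk k < p := hp.1.1
          unfold zk zz at this
          omega
  · push Not at hne
    obtain ⟨i, hi⟩ := hne
    have : ∏ i, ((A i).card : ℝ) = 0 := by
      refine prod_eq_zero (mem_univ i) ?_
      rw [hi]
      simp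
    rw [this]
    positivity

end Pool.Agent.X50.SQ
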