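import Pool.Agent.X50.LSv.Low
import Pool.Agent.TH194.BL.Lsk
import Pool.Agent.TH194.BL.Add

/-!
The arithmetic large sieve in dimension `k` with general weights (after
`Pool/Agent/TH194/BL/Lsk.lean`).
-/

set_option autoImplicit false

namespace Pool.Agent.X50.LSv

open Finset
open Pool.Agent.Helper112 (ee)
open Pool.Agent.TH194.BL (Far add)
open Pool.Agent.TH194.BL.LSK (mD mD_pos Phi phi_mem D_eq b_eq val_eq Bs mem_Bs)

theorem phi_inj {k : ℕ} (𝒟 : Finset (Finset ℕ)) (P : Finset ℕ) (hP : ∀ t ∈ P, t.Prime)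
    (h𝒟 : ∀ D ∈ 𝒟, D ⊆ P)
    (x y : (_ : Finset ℕ) × (Fin k → ℕ)) (hx : x ∈ 𝒟.sigma (fun D => Bs k D))
    (hy : y ∈ 𝒟.sigma (fun D => Bs k D)) (heq : Phi x = Phi y) : x = y := by
  obtain ⟨D, b⟩ := x
  obtain ⟨D', b'⟩ := y
  rw [Finset.mem_sigma, mem_Bs] at hx hy
  have e1 := D_eq P D hP (h𝒟 D hx.1) b hx.2.2
  have e2 := D_eq P D' hP (h𝒟 D' hy.1) b' hy.2.2
  have e3 : D = D' := by
    rw [e1, e2, heq]
  subst e3
  have hD : ∀ t ∈ D, t.Prime := fun t ht => hP t (h𝒟 D hx.1 ht)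
  have e4 : b = b' := by
    funext i
    rw [b_eq D hD b i, b_eq D hD b' i, heq]
  rw [e4]


/-- the sum over all moduli is at most the sum over all vectors of fractions -/
theorem collect {k : ℕ} (Q : ℕ) (𝒟 : Finset (Finset ℕ)) (P : Finset ℕ) (hP : ∀ t ∈ P, t.Prime)
    (h𝒟 : ∀ D ∈ 𝒟, D ⊆ P) (hQ : ∀ D ∈ 𝒟, ∏ t ∈ D, t ≤ Q) (F : (Fin k → ℕ × ℕ) → ℝ) (hF : ∀ r, 0 ≤ F r) :
    ∑ D ∈ 𝒟, ∑ b ∈ Bs k D, F (Phi ⟨D, b⟩) ≤
      ∑ r ∈ Fintype.piFinset (fun _ : Fin k => Far Q), F r := by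
  classical
  rw [Finset.sum_sigma' 𝒟 (fun D => Bs k D) (fun D b => F (Phi ⟨D, b⟩))]
  have hs : ∑ x ∈ 𝒟.sigma (fun D => Bs k D), F (Phi x) =
      ∑ r ∈ (𝒟.sigma (fun D => Bs k D)).image Phi, F r :=
    (Finset.sum_image (fun x hx y hy h => phi_inj 𝒟 P hP h𝒟 x y hx hy h)).symm
  refine (le_of_eq hs).trans ?_
  refine Finset.sum_le_sum_of_subset_of_nonneg ?_ (fun r _ _ => hF r)
  intro r hr
  obtain ⟨⟨D, b⟩, hx, rfl⟩ := Finset.mem_image.1 hr
  rw [Finset.mem_sigma, mem_Bs] at hx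
  exact phi_mem Q D (fun t ht => hP t (h𝒟 D hx.1 ht)) (hQ D hx.1) b
    (fun i => hx.2.1 i)

/-- the arithmetic large sieve in dimension `k`, with general weights -/
theorem lsk (k N Q : ℕ) (a : Fin k → ℕ) (P : Finset ℕ) (𝒟 : Finset (Finset ℕ))
    (Z : Finset (Fin k → ℕ)) (Om : (t : ℕ) → Finset (Fin k → ZMod t)) (w : ℕ → ℝ)
    (hP : ∀ t ∈ P, t.Prime) (h𝒟 : ∀ D ∈ 𝒟, D ⊆ P)
    (hZ : ∀ z ∈ Z, ∀ i, z i ∈ Ioc (a i) (a i + N)) (hw : ∀ t ∈ P, 0 ≤ w t)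
    (hOm : ∀ t ∈ P, ((Om t).card : ℝ) * (1 + w t) ≤ (t : ℝ) ^ k)
    (hZO : ∀ z ∈ Z, ∀ t ∈ P, (fun i => ((z i : ℕ) : ZMod t)) ∈ Om t)
    (hD : ∀ D ∈ 𝒟, ∏ t ∈ D, t ≤ Q) :
    (Z.card : ℝ) * ∑ D ∈ 𝒟, ∏ t ∈ D, w t ≤ (6 * ((N : ℝ) + (Q : ℝ) ^ 2)) ^ k := by
  classical
  -- translation
  set c : (Fin k → ℕ) → ℂ := fun z => if (fun i => z i + a i) ∈ Z then 1 else 0 with hc
  have hsum : ∀ g : (Fin k → ℕ) → ℂ, ∑ z ∈ Fintype.piFinset (fun _ : Fin k => Icc 1 N), c z * g z =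
      ∑ z ∈ Z, g (fun i => z i - a i) := by
    intro g
    have e1 : ∑ z ∈ Fintype.piFinset (fun _ : Fin k => Icc 1 N), c z * g z =
        ∑ z ∈ (Fintype.piFinset (fun _ : Fin k => Icc 1 N)).filter
          (fun z => (fun i => z i + a i) ∈ Z), g z := by
      rw [Finset.sum_filter]
      refine Finset.sum_congr rfl fun z _ => ?_
      simp only [hc]
      split_ifs <;> simp
    rw [e1]
    symm
    refine Finset.sum_bij' (fun z _ => fun i => z i - a i) (fun z _ => fun i => z i + a i)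
      ?_ ?_ ?_ ?_ ?_
    · intro z hz
      rw [Finset.mem_filter, Fintype.mem_piFinset]
      have h3 : (fun i => z i - a i + a i) = z := by
        funext i
        have := Finset.mem_Ioc.1 (hZ z hz i)
        omega
      refine ⟨fun i => ?_, by rw [h3]; exact hz⟩
      have := Finset.mem_Ioc.1 (hZ z hz i)
      rw [Finset.mem_Icc]
      omega
    · intro z hz
      exact (Finset.mem_filter.1 hz).2
    · intro z hz
      funext i
      have := Finset.mem_Ioc.1 (hZ z hz i)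
      show z i - a i + a i = z i
      omega
    · intro z hz
      funext i
      show z i + a i - a i = z i
      omega
    · intro z _
      rfl
  have hc2 : ∑ z ∈ Fintype.piFinset (fun _ : Fin k => Icc 1 N), ‖c z‖ ^ 2 = (Z.card : ℝ) := by
    have e1 := hsum (fun _ => 1)
    have e2 : ∀ z, ((‖c z‖ ^ 2 : ℝ) : ℂ) = c z * 1 := by
      intro z
      simp only [hc]
      split_ifs <;> simp
    have e3 : ((∑ z ∈ Fintype.piFinset (fun _ : Fin k => Icc 1 N), ‖c z‖ ^ 2 : ℝ) : ℂ) =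
        ((Z.card : ℝ) : ℂ) := by
      rw [Complex.ofReal_sum, Finset.sum_congr rfl (fun z _ => e2 z), e1]
      simp
    exact_mod_cast e3
  set F : (Fin k → ℕ × ℕ) → ℝ := fun r =>
    ‖∑ z ∈ Z, (1 : ℂ) * ee (∑ i, (z i : ℝ) * (r i).2 / (r i).1)‖ ^ 2 with hF
  have hFadd : ∀ r, F r = ‖∑ z ∈ Fintype.piFinset (fun _ : Fin k => Icc 1 N),
      c z * ee (∑ i, (z i : ℝ) * (r i).2 / (r i).1)‖ ^ 2 := by
    intro r
    rw [hsum (fun z => ee (∑ i, (z i : ℝ) * (r i).2 / (r i).1))]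
    have e1 : ∀ z ∈ Z, (1 : ℂ) * ee (∑ i, (z i : ℝ) * (r i).2 / (r i).1) =
        ee (∑ i, (a i : ℝ) * (r i).2 / (r i).1) *
          ee (∑ i, (((z i - a i : ℕ)) : ℝ) * (r i).2 / (r i).1) := by
      intro z hz
      rw [one_mul, ← Pool.Agent.Helper112.ls_ee_add, ← Finset.sum_add_distrib]
      congr 1
      refine Finset.sum_congr rfl fun i _ => ?_
      have h3 := Finset.mem_Ioc.1 (hZ z hz i)
      have h4 : (z i : ℝ) = (a i : ℝ) + ((z i - a i : ℕ) : ℝ) := by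
        have : z i = a i + (z i - a i) := by omega
        exact_mod_cast this
      rw [h4]
      ring
    simp only [hF]
    rw [Finset.sum_congr rfl e1, ← Finset.mul_sum, norm_mul, Pool.Agent.Helper112.ls_norm_ee, one_mul]
  have hcol := collect Q 𝒟 P hP h𝒟 hD F (fun r => by simp only [hF]; positivity)
  have hlow : ∀ D ∈ 𝒟, (∏ t ∈ D, w t) * (Z.card : ℝ) ^ 2 ≤
      ∑ b ∈ Bs k D, F (Phi ⟨D, b⟩) := by
    intro D hDm
    have hDP := h𝒟 D hDm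
    have h3 := low k D Z Om w (fun t ht => hP t (hDP ht)) (fun t ht => hw t (hDP ht))
      (fun t ht => hOm t (hDP ht)) (fun z hz t ht => hZO z hz t (hDP ht)) (fun _ => 1)
    have h4 : ‖∑ _z ∈ Z, (1 : ℂ)‖ = (Z.card : ℝ) := by simp
    rw [h4] at h3
    refine h3.trans (le_of_eq ?_)
    refine Finset.sum_congr rfl fun b _ => ?_
    simp only [hF]
    congr 2
    refine Finset.sum_congr rfl fun z _ => ?_
    rw [val_eq D (fun t ht => hP t (hDP ht)) b z]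
  have hsumD : (∑ D ∈ 𝒟, ∏ t ∈ D, w t) * (Z.card : ℝ) ^ 2 ≤
      ∑ r ∈ Fintype.piFinset (fun _ : Fin k => Far Q), F r := by
    refine le_trans ?_ hcol
    rw [Finset.sum_mul]
    exact Finset.sum_le_sum hlow
  have hadd := add k N Q c
  rw [hc2] at hadd
  have h6 : ∑ r ∈ Fintype.piFinset (fun _ : Fin k => Far Q), F r ≤
      (6 * ((N : ℝ) + (Q : ℝ) ^ 2)) ^ k * (Z.card : ℝ) := by
    rw [Finset.sum_congr rfl (fun r _ => hFadd r)]
    exact hadd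
  rcases Nat.eq_zero_or_pos Z.card with h0 | h0
  · rw [h0]
    simp only [Nat.cast_zero, zero_mul]
    positivity
  · have hZ0 : (0 : ℝ) < Z.card := by exact_mod_cast h0
    have h8 := hsumD.trans h6
    have h9 : ((Z.card : ℝ) * ∑ D ∈ 𝒟, ∏ t ∈ D, w t) * (Z.card : ℝ) ≤
        (6 * ((N : ℝ) + (Q : ℝ) ^ 2)) ^ k * (Z.card : ℝ) := by
      refine le_trans (le_of_eq ?_) h8
      ring
    exact le_of_mul_le_mul_right h9 hZ0

end Pool.Agent.X50.LSv
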